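import Mathlib

set_option linter.all false

namespace Pool.Agent.Helper417.CubicFlex

open MvPolynomial

/-- substitution killing the variables in `S` -/
noncomputable def kill (S : Finset (Fin 3)) : MvPolynomial (Fin 3) ℂ →ₐ[ℂ] MvPolynomial (Fin 3) ℂ :=
  aeval (fun i => if i ∈ S then 0 else X i)

theorem kill_X (S : Finset (Fin 3)) (i : Fin 3) : kill S (X i) = if i ∈ S then 0 else X i := by
  simp [kill]

theorem kill_kill (S T : Finset (Fin 3)) (h : S ⊆ T) (p : MvPolynomial (Fin 3) ℂ) :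
    kill T (kill S p) = kill T p := by
  have : (kill T).comp (kill S) = kill T := by
    apply MvPolynomial.algHom_ext
    intro i
    simp only [AlgHom.comp_apply, kill_X]
    by_cases hi : i ∈ S
    · simp [hi, h hi]
    · simp [hi, kill_X]
  exact DFunLike.congr_fun this p

theorem ker_lt (S T : Finset (Fin 3)) (h : S ⊆ T) (i : Fin 3) (hi : i ∈ T) (hiS : i ∉ S) :
    RingHom.ker (kill S : MvPolynomial (Fin 3) ℂ →+* MvPolynomial (Fin 3) ℂ) <
      RingHom.ker (kill T : MvPolynomial (Fin 3) ℂ →+* MvPolynomial (Fin 3) ℂ) := by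
  refine lt_of_le_of_ne ?_ ?_
  · intro p hp
    rw [RingHom.mem_ker] at hp ⊢
    change kill S p = 0 at hp
    change kill T p = 0
    rw [← kill_kill S T h, hp, map_zero]
  · intro he
    have h1 : (X i : MvPolynomial (Fin 3) ℂ) ∈
        RingHom.ker (kill T : MvPolynomial (Fin 3) ℂ →+* MvPolynomial (Fin 3) ℂ) := by
      rw [RingHom.mem_ker]
      change kill T (X i) = 0
      simp [kill_X, hi]
    rw [← he, RingHom.mem_ker] at h1
    change kill S (X i) = 0 at h1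
    rw [kill_X, if_neg hiS] at h1
    exact X_ne_zero i h1

theorem common_zero (P Q : MvPolynomial (Fin 3) ℂ) (hP : eval 0 P = 0) (hQ : eval 0 Q = 0) :
    ∃ w : Fin 3 → ℂ, w ≠ 0 ∧ eval w P = 0 ∧ eval w Q = 0 := by
  by_contra hcon
  push Not at hcon
  have hzl : zeroLocus ℂ (Ideal.span {P, Q}) = {0} := by
    rw [zeroLocus_span]
    ext x
    simp only [Set.mem_insert_iff, Set.mem_singleton_iff, forall_eq_or_imp, forall_eq,
      Set.mem_setOf_eq]
    constructor
    · rintro ⟨h1, h2⟩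
      by_contra hx
      exact hcon x hx (by simpa [aeval_eq_eval] using h1) (by simpa [aeval_eq_eval] using h2)
    · rintro rfl
      exact ⟨by simpa [aeval_eq_eval] using hP, by simpa [aeval_eq_eval] using hQ⟩
  have hrad := vanishingIdeal_zeroLocus_eq_radical (K := ℂ) (Ideal.span {P, Q})
  rw [hzl] at hrad
  set M : Ideal (MvPolynomial (Fin 3) ℂ) := vanishingIdeal ℂ {(0 : Fin 3 → ℂ)} with hM
  have hmin : M ∈ (Ideal.span {P, Q} : Ideal (MvPolynomial (Fin 3) ℂ)).minimalPrimes := by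
    refine ⟨⟨inferInstance, ?_⟩, ?_⟩
    · rw [hrad]
      exact Ideal.le_radical
    · rintro q ⟨hq1, hq2⟩ _
      rw [hrad]
      exact (Ideal.IsPrime.radical_le_iff hq1).2 hq2
  have hle := Ideal.height_le_card_of_mem_minimalPrimes_span (Set.toFinite {P, Q}) hmin
  have hcard : ({P, Q} : Set (MvPolynomial (Fin 3) ℂ)).ncard ≤ 2 := by
    refine (Set.ncard_insert_le P {Q}).trans ?_
    simp
  have k0 : RingHom.ker (kill ∅ : MvPolynomial (Fin 3) ℂ →+* MvPolynomial (Fin 3) ℂ) <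
      RingHom.ker (kill {0} : MvPolynomial (Fin 3) ℂ →+* MvPolynomial (Fin 3) ℂ) :=
    ker_lt _ _ (by simp) 0 (by simp) (by simp)
  have k1 : RingHom.ker (kill {0} : MvPolynomial (Fin 3) ℂ →+* MvPolynomial (Fin 3) ℂ) <
      RingHom.ker (kill {0, 1} : MvPolynomial (Fin 3) ℂ →+* MvPolynomial (Fin 3) ℂ) :=
    ker_lt _ _ (by simp) 1 (by simp) (by simp)
  have k2 : RingHom.ker (kill {0, 1} : MvPolynomial (Fin 3) ℂ →+* MvPolynomial (Fin 3) ℂ) <
      RingHom.ker (kill {0, 1, 2} : MvPolynomial (Fin 3) ℂ →+* MvPolynomial (Fin 3) ℂ) :=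
    ker_lt _ _ (by intro a ha; simp at ha ⊢; tauto) 2 (by simp) (by simp)
  have hMk : M = RingHom.ker (kill {0, 1, 2} : MvPolynomial (Fin 3) ℂ →+* MvPolynomial (Fin 3) ℂ) := by
    ext p
    rw [hM, mem_vanishingIdeal_singleton_iff, RingHom.mem_ker]
    change _ ↔ kill {0, 1, 2} p = 0
    have e : kill {0, 1, 2} p = C (eval 0 p) := by
      have : kill {0, 1, 2} = (Algebra.ofId ℂ (MvPolynomial (Fin 3) ℂ)).comp
          (aeval (0 : Fin 3 → ℂ)) := by
        apply MvPolynomial.algHom_ext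
        intro i
        rw [kill_X]
        fin_cases i <;> simp
      rw [this]
      simp [Algebra.ofId_apply, aeval_eq_eval]
    rw [e]
    simp [aeval_eq_eval]
  haveI p0 : (RingHom.ker (kill ∅ : MvPolynomial (Fin 3) ℂ →+* MvPolynomial (Fin 3) ℂ)).IsPrime :=
    RingHom.ker_isPrime _
  haveI p1 : (RingHom.ker (kill {0} : MvPolynomial (Fin 3) ℂ →+* MvPolynomial (Fin 3) ℂ)).IsPrime :=
    RingHom.ker_isPrime _
  haveI p2 : (RingHom.ker (kill {0, 1} : MvPolynomial (Fin 3) ℂ →+*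
    MvPolynomial (Fin 3) ℂ)).IsPrime := RingHom.ker_isPrime _
  haveI p3 : (RingHom.ker (kill {0, 1, 2} : MvPolynomial (Fin 3) ℂ →+*
    MvPolynomial (Fin 3) ℂ)).IsPrime := RingHom.ker_isPrime _
  have h1 := Ideal.height_add_one_le_of_lt_of_isPrime k0
  have h2 := Ideal.height_add_one_le_of_lt_of_isPrime k1
  have h3 := Ideal.height_add_one_le_of_lt_of_isPrime k2
  rw [← hMk] at h3
  have h4 : (3 : ℕ∞) ≤ M.height := by
    calc (3 : ℕ∞) = 0 + 1 + 1 + 1 := by norm_num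
      _ ≤ (RingHom.ker (kill ∅ : MvPolynomial (Fin 3) ℂ →+* MvPolynomial (Fin 3) ℂ)).height
          + 1 + 1 + 1 := by gcongr; exact bot_le
      _ ≤ (RingHom.ker (kill {0} : MvPolynomial (Fin 3) ℂ →+* MvPolynomial (Fin 3) ℂ)).height
          + 1 + 1 := by gcongr
      _ ≤ (RingHom.ker (kill {0, 1} : MvPolynomial (Fin 3) ℂ →+* MvPolynomial (Fin 3) ℂ)).height
          + 1 := by gcongr
      _ ≤ M.height := h3
  have h5 : (3 : ℕ∞) ≤ (2 : ℕ) := h4.trans (hle.trans (by exact_mod_cast hcard))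
  norm_num at h5

/-- the general ternary cubic with coefficient vector `c` -/
noncomputable def cub (c : Fin 10 → ℂ) : MvPolynomial (Fin 3) ℂ :=
  C (c 0) * X 0 ^ 3 + C (c 1) * X 0 ^ 2 * X 1 + C (c 2) * X 0 ^ 2 * X 2 + C (c 3) * X 0 * X 1 ^ 2
  + C (c 4) * X 0 * X 1 * X 2 + C (c 5) * X 0 * X 2 ^ 2 + C (c 6) * X 1 ^ 3
  + C (c 7) * X 1 ^ 2 * X 2 + C (c 8) * X 1 * X 2 ^ 2 + C (c 9) * X 2 ^ 3

theorem cub_add (c d : Fin 10 → ℂ) : cub (c + d) = cub c + cub d := by
  simp only [cub, Pi.add_apply, map_add]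
  ring

theorem mon_rep (i j : ℕ) (h : i + j ≤ 3) (a : ℂ) :
    ∃ c : Fin 10 → ℂ, C a * (X 0 ^ i * X 1 ^ j * X 2 ^ (3 - i - j)) = cub c := by
  have hi : i ≤ 3 := by omega
  interval_cases i
  · have hj : j ≤ 3 := by omega
    interval_cases j
    · exact ⟨Pi.single 9 a, by simp [cub]⟩
    · exact ⟨Pi.single 8 a, by simp [cub]; ring⟩
    · exact ⟨Pi.single 7 a, by simp [cub]; ring⟩
    · exact ⟨Pi.single 6 a, by simp [cub]⟩
  · have hj : j ≤ 2 := by omega
    interval_cases j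
    · exact ⟨Pi.single 5 a, by simp [cub]; ring⟩
    · exact ⟨Pi.single 4 a, by simp [cub]; ring⟩
    · exact ⟨Pi.single 3 a, by simp [cub]; ring⟩
  · have hj : j ≤ 1 := by omega
    interval_cases j
    · exact ⟨Pi.single 2 a, by simp [cub]; ring⟩
    · exact ⟨Pi.single 1 a, by simp [cub]; ring⟩
  · have hj : j ≤ 0 := by omega
    interval_cases j
    exact ⟨Pi.single 0 a, by simp [cub]⟩

theorem exists_cub (P : MvPolynomial (Fin 3) ℂ) (hP : P.IsHomogeneous 3) :
    ∃ c : Fin 10 → ℂ, P = cub c := by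
  rw [P.as_sum]
  refine Finset.sum_induction _ (fun Q => ∃ c : Fin 10 → ℂ, Q = cub c) ?_ ?_ ?_
  · rintro _ _ ⟨c, rfl⟩ ⟨d, rfl⟩
    exact ⟨c + d, (cub_add c d).symm⟩
  · exact ⟨0, by simp [cub]⟩
  · intro d hd
    have hsum : d 0 + d 1 + d 2 = 3 := by
      have h1 := hP (mem_support_iff.1 hd)
      rw [Finsupp.weight_apply, Finsupp.sum_fintype _ _ (by simp), Fin.sum_univ_three] at h1
      simpa using h1
    have hmon : monomial d (coeff d P) =
        C (coeff d P) * (X 0 ^ (d 0) * X 1 ^ (d 1) * X 2 ^ (d 2)) := by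
      rw [monomial_eq, Finsupp.prod_fintype _ _ (by simp), Fin.prod_univ_three]
    have hd2 : d 2 = 3 - d 0 - d 1 := by omega
    rw [hmon, hd2]
    exact mon_rep _ _ (by omega) _

end Pool.Agent.Helper417.CubicFlex
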