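import Mathlib

namespace Pool.Agent.Helper417.CubicGrad

open MvPolynomial

/-- The linear form on `ℂ^n` with coefficient vector `g`. -/
noncomputable def lin {n : ℕ} (g : Fin n → ℂ) : (Fin n → ℂ) →L[ℂ] ℂ :=
  ∑ i, g i • (ContinuousLinearMap.proj i : (Fin n → ℂ) →L[ℂ] ℂ)

theorem lin_apply {n : ℕ} (g v : Fin n → ℂ) : lin g v = ∑ i, g i * v i := by
  simp [lin]

theorem lin_add {n : ℕ} (g h : Fin n → ℂ) : lin (g + h) = lin g + lin h := by
  ext v
  simp [lin_apply, add_mul, Finset.sum_add_distrib]

theorem lin_smul {n : ℕ} (c : ℂ) (g : Fin n → ℂ) : lin (c • g) = c • lin g := by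
  ext v
  simp [lin_apply, Finset.mul_sum, mul_assoc]

theorem hasFDerivAt_eval {n : ℕ} (P : MvPolynomial (Fin n) ℂ) (w : Fin n → ℂ) :
    HasFDerivAt (fun w : Fin n → ℂ => eval w P) (lin fun i => eval w (pderiv i P)) w := by
  induction P using MvPolynomial.induction_on with
  | C a =>
    simp only [eval_C, pderiv_C, map_zero]
    have : lin (fun _ : Fin n => (0 : ℂ)) = 0 := by
      ext v
      simp [lin_apply]
    rw [this]
    exact hasFDerivAt_const a w
  | add p q hp hq =>
    have h := hp.add hq
    rw [← lin_add] at h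
    simp only [map_add]
    exact h
  | mul_X p j hp =>
    have hj : HasFDerivAt (fun w : Fin n → ℂ => w j)
        (ContinuousLinearMap.proj j : (Fin n → ℂ) →L[ℂ] ℂ) w :=
      (ContinuousLinearMap.proj j : (Fin n → ℂ) →L[ℂ] ℂ).hasFDerivAt
    have h := hp.mul hj
    have e : (fun w : Fin n → ℂ => eval w (p * X j)) = (fun w => eval w p * w j) := by
      funext w
      simp
    rw [e]
    refine h.congr_fderiv ?_
    ext v
    simp only [_root_.add_apply, _root_.smul_apply, smul_eq_mul, lin_apply,
      ContinuousLinearMap.proj_apply, pderiv_mul, map_add, map_mul, eval_X, pderiv_X]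
    simp only [add_mul, Finset.sum_add_distrib, Finset.mul_sum]
    have e2 : ∀ i, eval w p * eval w ((Pi.single i 1 : Fin n → MvPolynomial (Fin n) ℂ) j) * v i =
        if i = j then eval w p * v j else 0 := by
      intro i
      by_cases hij : i = j
      · subst hij
        simp
      · rw [Pi.single_eq_of_ne (Ne.symm hij)]
        simp [hij]
    rw [Finset.sum_congr rfl (fun i _ => e2 i)]
    simp only [Finset.sum_ite_eq', Finset.mem_univ, if_true]
    rw [add_comm]
    congr 1
    refine Finset.sum_congr rfl fun i _ => ?_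
    ring

end Pool.Agent.Helper417.CubicGrad
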