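import Mathlib
import Pool.Agent.Helper417.CubicGrad

set_option linter.all false

namespace Pool.Agent.Helper417.CubicId

open MvPolynomial Pool.Agent.Helper417.CubicGrad

def F (b p q y : ℂ) : ℂ := y^2*(p+q) + p*q*((b+1)*p+b*q)
def A0 (b p q y : ℂ) : ℂ :=
  -(y^2*(p+q)) + p*q*((b+1)*p+b*q) + y*((b+1)*p^2+b*q^2+2*b*p*q)
def A1 (b p q y : ℂ) : ℂ := y*((b+1)*p^2+b*q^2+2*(b+1)*p*q)
def B0 (b p q y : ℂ) : ℂ := q*((b+1)*p^2-y^2)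
def B1 (b p q y : ℂ) : ℂ := p*(y^2-b*q^2+2*y*q)
def K0 (b p q y : ℂ) : ℂ :=
  (b+1)^2*p^4*q*y + (b+1)^2*p^4*y^2 - (b+1)*b*p^3*q^3 - (b+1)*b*p^3*q^2*y
  + (b+1)*(2*b+1)*p^3*q*y^2 - (b+1)*p^3*y^3 - 3*(b+1)*b*p^2*q^3*y - 3*(b+1)*p^2*q*y^3
  - b^2*p*q^4*y - b*(2*b+1)*p*q^3*y^2 - b*p*q^2*y^3 + p*q*y^4 - b^2*q^4*y^2 + b*q^3*y^3
def K1 (b p q y : ℂ) : ℂ :=
  (b+1)^2*b*p^4*q^2 - (b+1)^2*p^4*q*y + (b+1)*b*(2*b+1)*p^3*q^3 - 3*(b+1)*b*p^3*q^2*y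
  + 3*(b+1)*p^3*q*y^2 + (b+1)*p^3*y^3 + (b+1)*b^2*p^2*q^4 - (b+1)*b*p^2*q^3*y
  - (b+1)*p^2*q*y^3 - (b+1)*p^2*y^4 + b^2*p*q^4*y - 3*b*p*q^3*y^2 - 3*b*p*q^2*y^3
  - (2*b+1)*p*q*y^4 - b*q^3*y^3 - b*q^2*y^4

def Fp (b p q y : ℂ) : ℂ := (2*b + 2)*p*q + b*q^2 + y^2
def Fq (b p q y : ℂ) : ℂ := (b + 1)*p^2 + 2*b*p*q + y^2
def Fy (b p q y : ℂ) : ℂ := 2*p*y + 2*q*y
def A0p (b p q y : ℂ) : ℂ := (2*b + 2)*p*q + (2*b + 2)*p*y + b*q^2 + 2*b*q*y + (-1)*y^2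
def A0q (b p q y : ℂ) : ℂ := (b + 1)*p^2 + 2*b*p*q + 2*b*p*y + 2*b*q*y + (-1)*y^2
def A0y (b p q y : ℂ) : ℂ := (b + 1)*p^2 + 2*b*p*q + (-2)*p*y + b*q^2 + (-2)*q*y
def A1p (b p q y : ℂ) : ℂ := (2*b + 2)*p*y + (2*b + 2)*q*y
def A1q (b p q y : ℂ) : ℂ := (2*b + 2)*p*y + 2*b*q*y
def A1y (b p q y : ℂ) : ℂ := (b + 1)*p^2 + (2*b + 2)*p*q + b*q^2
def B0p (b p q y : ℂ) : ℂ := (2*b + 2)*p*q
def B0q (b p q y : ℂ) : ℂ := (b + 1)*p^2 + (-1)*y^2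
def B0y (b p q y : ℂ) : ℂ := (-2)*q*y
def B1p (b p q y : ℂ) : ℂ := (-b)*q^2 + 2*q*y + y^2
def B1q (b p q y : ℂ) : ℂ := (-2*b)*p*q + 2*p*y
def B1y (b p q y : ℂ) : ℂ := 2*p*q + 2*p*y
def K0p (b p q y : ℂ) : ℂ := (4*b^2 + 8*b + 4)*p^3*q*y + (4*b^2 + 8*b + 4)*p^3*y^2 + (-3*b^2 - 3*b)*p^2*q^3 + (-3*b^2 - 3*b)*p^2*q^2*y + (6*b^2 + 9*b + 3)*p^2*q*y^2 + (-3*b - 3)*p^2*y^3 + (-6*b^2 - 6*b)*p*q^3*y + (-6*b - 6)*p*q*y^3 + (-b^2)*q^4*y + (-2*b^2 - b)*q^3*y^2 + (-b)*q^2*y^3 + q*y^4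
def K0q (b p q y : ℂ) : ℂ := (b^2 + 2*b + 1)*p^4*y + (-3*b^2 - 3*b)*p^3*q^2 + (-2*b^2 - 2*b)*p^3*q*y + (2*b^2 + 3*b + 1)*p^3*y^2 + (-9*b^2 - 9*b)*p^2*q^2*y + (-3*b - 3)*p^2*y^3 + (-4*b^2)*p*q^3*y + (-6*b^2 - 3*b)*p*q^2*y^2 + (-2*b)*p*q*y^3 + p*y^4 + (-4*b^2)*q^3*y^2 + 3*b*q^2*y^3
def K0y (b p q y : ℂ) : ℂ := (b^2 + 2*b + 1)*p^4*q + (2*b^2 + 4*b + 2)*p^4*y + (-b^2 - b)*p^3*q^2 + (4*b^2 + 6*b + 2)*p^3*q*y + (-3*b - 3)*p^3*y^2 + (-3*b^2 - 3*b)*p^2*q^3 + (-9*b - 9)*p^2*q*y^2 + (-b^2)*p*q^4 + (-4*b^2 - 2*b)*p*q^3*y + (-3*b)*p*q^2*y^2 + 4*p*q*y^3 + (-2*b^2)*q^4*y + 3*b*q^3*y^2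
def K1p (b p q y : ℂ) : ℂ := (4*b^3 + 8*b^2 + 4*b)*p^3*q^2 + (-4*b^2 - 8*b - 4)*p^3*q*y + (6*b^3 + 9*b^2 + 3*b)*p^2*q^3 + (-9*b^2 - 9*b)*p^2*q^2*y + (9*b + 9)*p^2*q*y^2 + (3*b + 3)*p^2*y^3 + (2*b^3 + 2*b^2)*p*q^4 + (-2*b^2 - 2*b)*p*q^3*y + (-2*b - 2)*p*q*y^3 + (-2*b - 2)*p*y^4 + b^2*q^4*y + (-3*b)*q^3*y^2 + (-3*b)*q^2*y^3 + (-2*b - 1)*q*y^4
def K1q (b p q y : ℂ) : ℂ := (2*b^3 + 4*b^2 + 2*b)*p^4*q + (-b^2 - 2*b - 1)*p^4*y + (6*b^3 + 9*b^2 + 3*b)*p^3*q^2 + (-6*b^2 - 6*b)*p^3*q*y + (3*b + 3)*p^3*y^2 + (4*b^3 + 4*b^2)*p^2*q^3 + (-3*b^2 - 3*b)*p^2*q^2*y + (-b - 1)*p^2*y^3 + 4*b^2*p*q^3*y + (-9*b)*p*q^2*y^2 + (-6*b)*p*q*y^3 + (-2*b - 1)*p*y^4 + (-3*b)*q^2*y^3 + (-2*b)*q*y^4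
def K1y (b p q y : ℂ) : ℂ := (-b^2 - 2*b - 1)*p^4*q + (-3*b^2 - 3*b)*p^3*q^2 + (6*b + 6)*p^3*q*y + (3*b + 3)*p^3*y^2 + (-b^2 - b)*p^2*q^3 + (-3*b - 3)*p^2*q*y^2 + (-4*b - 4)*p^2*y^3 + b^2*p*q^4 + (-6*b)*p*q^3*y + (-9*b)*p*q^2*y^2 + (-8*b - 4)*p*q*y^3 + (-3*b)*q^3*y^2 + (-4*b)*q^2*y^3


/-- `3 × 3` determinant of three row vectors. -/
def det3 (u v w : Fin 3 → ℂ) : ℂ :=
  u 0 * (v 1 * w 2 - v 2 * w 1) - u 1 * (v 0 * w 2 - v 2 * w 0) + u 2 * (v 0 * w 1 - v 1 * w 0)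

def gF (b p q y : ℂ) : Fin 3 → ℂ := ![Fp b p q y, Fq b p q y, Fy b p q y]
def gA0 (b p q y : ℂ) : Fin 3 → ℂ := ![A0p b p q y, A0q b p q y, A0y b p q y]
def gA1 (b p q y : ℂ) : Fin 3 → ℂ := ![A1p b p q y, A1q b p q y, A1y b p q y]
def gB0 (b p q y : ℂ) : Fin 3 → ℂ := ![B0p b p q y, B0q b p q y, B0y b p q y]
def gB1 (b p q y : ℂ) : Fin 3 → ℂ := ![B1p b p q y, B1q b p q y, B1y b p q y]
def gK0 (b p q y : ℂ) : Fin 3 → ℂ := ![K0p b p q y, K0q b p q y, K0y b p q y]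
def gK1 (b p q y : ℂ) : Fin 3 → ℂ := ![K1p b p q y, K1q b p q y, K1y b p q y]


theorem pderiv_two (i : Fin 3) : pderiv i (2 : MvPolynomial (Fin 3) ℂ) = 0 := by
  have : (2 : MvPolynomial (Fin 3) ℂ) = C 2 := (map_ofNat C 2).symm
  rw [this, pderiv_C]

theorem pderiv_three (i : Fin 3) : pderiv i (3 : MvPolynomial (Fin 3) ℂ) = 0 := by
  have : (3 : MvPolynomial (Fin 3) ℂ) = C 3 := (map_ofNat C 3).symm
  rw [this, pderiv_C]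

set_option maxHeartbeats 4000000 in
theorem hasFDerivAt_F (b : ℂ) (w : Fin 3 → ℂ) :
    HasFDerivAt (fun w : Fin 3 → ℂ => F b (w 0) (w 1) (w 2))
      (lin (gF b (w 0) (w 1) (w 2))) w := by
  have h := hasFDerivAt_eval (X 2^2*(X 0+X 1) + X 0*X 1*((C b+1)*X 0+C b*X 1) : MvPolynomial (Fin 3) ℂ) w
  have e1 : (fun w : Fin 3 → ℂ => F b (w 0) (w 1) (w 2)) = (fun w : Fin 3 → ℂ => eval w
      (X 2^2*(X 0+X 1) + X 0*X 1*((C b+1)*X 0+C b*X 1) : MvPolynomial (Fin 3) ℂ)) := by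
    funext w
    simp [F]
  have e2 : gF b (w 0) (w 1) (w 2) = (fun i => eval w (pderiv i
      (X 2^2*(X 0+X 1) + X 0*X 1*((C b+1)*X 0+C b*X 1) : MvPolynomial (Fin 3) ℂ))) := by
    funext i
    fin_cases i
    · simp [gF, Fp, pderiv_mul, pderiv_pow, pderiv_X, Pi.single_apply,
        pderiv_two, pderiv_three]
      try ring
    · simp [gF, Fq, pderiv_mul, pderiv_pow, pderiv_X, Pi.single_apply,
        pderiv_two, pderiv_three]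
      try ring
    · simp [gF, Fy, pderiv_mul, pderiv_pow, pderiv_X, Pi.single_apply,
        pderiv_two, pderiv_three]
      try ring
  rw [e1, e2]
  exact h

set_option maxHeartbeats 4000000 in
theorem hasFDerivAt_A0 (b : ℂ) (w : Fin 3 → ℂ) :
    HasFDerivAt (fun w : Fin 3 → ℂ => A0 b (w 0) (w 1) (w 2))
      (lin (gA0 b (w 0) (w 1) (w 2))) w := by
  have h := hasFDerivAt_eval (-(X 2^2*(X 0+X 1)) + X 0*X 1*((C b+1)*X 0+C b*X 1) + X 2*((C b+1)*X 0^2+C b*X 1^2+2*C b*X 0*X 1) : MvPolynomial (Fin 3) ℂ) w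
  have e1 : (fun w : Fin 3 → ℂ => A0 b (w 0) (w 1) (w 2)) = (fun w : Fin 3 → ℂ => eval w
      (-(X 2^2*(X 0+X 1)) + X 0*X 1*((C b+1)*X 0+C b*X 1) + X 2*((C b+1)*X 0^2+C b*X 1^2+2*C b*X 0*X 1) : MvPolynomial (Fin 3) ℂ)) := by
    funext w
    simp [A0]
  have e2 : gA0 b (w 0) (w 1) (w 2) = (fun i => eval w (pderiv i
      (-(X 2^2*(X 0+X 1)) + X 0*X 1*((C b+1)*X 0+C b*X 1) + X 2*((C b+1)*X 0^2+C b*X 1^2+2*C b*X 0*X 1) : MvPolynomial (Fin 3) ℂ))) := by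
    funext i
    fin_cases i
    · simp [gA0, A0p, pderiv_mul, pderiv_pow, pderiv_X, Pi.single_apply,
        pderiv_two, pderiv_three]
      try ring
    · simp [gA0, A0q, pderiv_mul, pderiv_pow, pderiv_X, Pi.single_apply,
        pderiv_two, pderiv_three]
      try ring
    · simp [gA0, A0y, pderiv_mul, pderiv_pow, pderiv_X, Pi.single_apply,
        pderiv_two, pderiv_three]
      try ring
  rw [e1, e2]
  exact h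

set_option maxHeartbeats 4000000 in
theorem hasFDerivAt_A1 (b : ℂ) (w : Fin 3 → ℂ) :
    HasFDerivAt (fun w : Fin 3 → ℂ => A1 b (w 0) (w 1) (w 2))
      (lin (gA1 b (w 0) (w 1) (w 2))) w := by
  have h := hasFDerivAt_eval (X 2*((C b+1)*X 0^2+C b*X 1^2+2*(C b+1)*X 0*X 1) : MvPolynomial (Fin 3) ℂ) w
  have e1 : (fun w : Fin 3 → ℂ => A1 b (w 0) (w 1) (w 2)) = (fun w : Fin 3 → ℂ => eval w
      (X 2*((C b+1)*X 0^2+C b*X 1^2+2*(C b+1)*X 0*X 1) : MvPolynomial (Fin 3) ℂ)) := by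
    funext w
    simp [A1]
  have e2 : gA1 b (w 0) (w 1) (w 2) = (fun i => eval w (pderiv i
      (X 2*((C b+1)*X 0^2+C b*X 1^2+2*(C b+1)*X 0*X 1) : MvPolynomial (Fin 3) ℂ))) := by
    funext i
    fin_cases i
    · simp [gA1, A1p, pderiv_mul, pderiv_pow, pderiv_X, Pi.single_apply,
        pderiv_two, pderiv_three]
      try ring
    · simp [gA1, A1q, pderiv_mul, pderiv_pow, pderiv_X, Pi.single_apply,
        pderiv_two, pderiv_three]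
      try ring
    · simp [gA1, A1y, pderiv_mul, pderiv_pow, pderiv_X, Pi.single_apply,
        pderiv_two, pderiv_three]
      try ring
  rw [e1, e2]
  exact h

set_option maxHeartbeats 4000000 in
theorem hasFDerivAt_B0 (b : ℂ) (w : Fin 3 → ℂ) :
    HasFDerivAt (fun w : Fin 3 → ℂ => B0 b (w 0) (w 1) (w 2))
      (lin (gB0 b (w 0) (w 1) (w 2))) w := by
  have h := hasFDerivAt_eval (X 1*((C b+1)*X 0^2-X 2^2) : MvPolynomial (Fin 3) ℂ) w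
  have e1 : (fun w : Fin 3 → ℂ => B0 b (w 0) (w 1) (w 2)) = (fun w : Fin 3 → ℂ => eval w
      (X 1*((C b+1)*X 0^2-X 2^2) : MvPolynomial (Fin 3) ℂ)) := by
    funext w
    simp [B0]
  have e2 : gB0 b (w 0) (w 1) (w 2) = (fun i => eval w (pderiv i
      (X 1*((C b+1)*X 0^2-X 2^2) : MvPolynomial (Fin 3) ℂ))) := by
    funext i
    fin_cases i
    · simp [gB0, B0p, pderiv_mul, pderiv_pow, pderiv_X, Pi.single_apply,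
        pderiv_two, pderiv_three]
      try ring
    · simp [gB0, B0q, pderiv_mul, pderiv_pow, pderiv_X, Pi.single_apply,
        pderiv_two, pderiv_three]
      try ring
    · simp [gB0, B0y, pderiv_mul, pderiv_pow, pderiv_X, Pi.single_apply,
        pderiv_two, pderiv_three]
      try ring
  rw [e1, e2]
  exact h

set_option maxHeartbeats 4000000 in
theorem hasFDerivAt_B1 (b : ℂ) (w : Fin 3 → ℂ) :
    HasFDerivAt (fun w : Fin 3 → ℂ => B1 b (w 0) (w 1) (w 2))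
      (lin (gB1 b (w 0) (w 1) (w 2))) w := by
  have h := hasFDerivAt_eval (X 0*(X 2^2-C b*X 1^2+2*X 2*X 1) : MvPolynomial (Fin 3) ℂ) w
  have e1 : (fun w : Fin 3 → ℂ => B1 b (w 0) (w 1) (w 2)) = (fun w : Fin 3 → ℂ => eval w
      (X 0*(X 2^2-C b*X 1^2+2*X 2*X 1) : MvPolynomial (Fin 3) ℂ)) := by
    funext w
    simp [B1]
  have e2 : gB1 b (w 0) (w 1) (w 2) = (fun i => eval w (pderiv i
      (X 0*(X 2^2-C b*X 1^2+2*X 2*X 1) : MvPolynomial (Fin 3) ℂ))) := by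
    funext i
    fin_cases i
    · simp [gB1, B1p, pderiv_mul, pderiv_pow, pderiv_X, Pi.single_apply,
        pderiv_two, pderiv_three]
      try ring
    · simp [gB1, B1q, pderiv_mul, pderiv_pow, pderiv_X, Pi.single_apply,
        pderiv_two, pderiv_three]
      try ring
    · simp [gB1, B1y, pderiv_mul, pderiv_pow, pderiv_X, Pi.single_apply,
        pderiv_two, pderiv_three]
      try ring
  rw [e1, e2]
  exact h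

set_option maxHeartbeats 4000000 in
theorem hasFDerivAt_K0 (b : ℂ) (w : Fin 3 → ℂ) :
    HasFDerivAt (fun w : Fin 3 → ℂ => K0 b (w 0) (w 1) (w 2))
      (lin (gK0 b (w 0) (w 1) (w 2))) w := by
  have h := hasFDerivAt_eval ((C b+1)^2*X 0^4*X 1*X 2 + (C b+1)^2*X 0^4*X 2^2 - (C b+1)*C b*X 0^3*X 1^3 - (C b+1)*C b*X 0^3*X 1^2*X 2
  + (C b+1)*(2*C b+1)*X 0^3*X 1*X 2^2 - (C b+1)*X 0^3*X 2^3 - 3*(C b+1)*C b*X 0^2*X 1^3*X 2 - 3*(C b+1)*X 0^2*X 1*X 2^3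
  - C b^2*X 0*X 1^4*X 2 - C b*(2*C b+1)*X 0*X 1^3*X 2^2 - C b*X 0*X 1^2*X 2^3 + X 0*X 1*X 2^4 - C b^2*X 1^4*X 2^2 + C b*X 1^3*X 2^3 : MvPolynomial (Fin 3) ℂ) w
  have e1 : (fun w : Fin 3 → ℂ => K0 b (w 0) (w 1) (w 2)) = (fun w : Fin 3 → ℂ => eval w
      ((C b+1)^2*X 0^4*X 1*X 2 + (C b+1)^2*X 0^4*X 2^2 - (C b+1)*C b*X 0^3*X 1^3 - (C b+1)*C b*X 0^3*X 1^2*X 2
  + (C b+1)*(2*C b+1)*X 0^3*X 1*X 2^2 - (C b+1)*X 0^3*X 2^3 - 3*(C b+1)*C b*X 0^2*X 1^3*X 2 - 3*(C b+1)*X 0^2*X 1*X 2^3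
  - C b^2*X 0*X 1^4*X 2 - C b*(2*C b+1)*X 0*X 1^3*X 2^2 - C b*X 0*X 1^2*X 2^3 + X 0*X 1*X 2^4 - C b^2*X 1^4*X 2^2 + C b*X 1^3*X 2^3 : MvPolynomial (Fin 3) ℂ)) := by
    funext w
    simp [K0]
  have e2 : gK0 b (w 0) (w 1) (w 2) = (fun i => eval w (pderiv i
      ((C b+1)^2*X 0^4*X 1*X 2 + (C b+1)^2*X 0^4*X 2^2 - (C b+1)*C b*X 0^3*X 1^3 - (C b+1)*C b*X 0^3*X 1^2*X 2
  + (C b+1)*(2*C b+1)*X 0^3*X 1*X 2^2 - (C b+1)*X 0^3*X 2^3 - 3*(C b+1)*C b*X 0^2*X 1^3*X 2 - 3*(C b+1)*X 0^2*X 1*X 2^3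
  - C b^2*X 0*X 1^4*X 2 - C b*(2*C b+1)*X 0*X 1^3*X 2^2 - C b*X 0*X 1^2*X 2^3 + X 0*X 1*X 2^4 - C b^2*X 1^4*X 2^2 + C b*X 1^3*X 2^3 : MvPolynomial (Fin 3) ℂ))) := by
    funext i
    fin_cases i
    · simp [gK0, K0p, pderiv_mul, pderiv_pow, pderiv_X, Pi.single_apply,
        pderiv_two, pderiv_three]
      try ring
    · simp [gK0, K0q, pderiv_mul, pderiv_pow, pderiv_X, Pi.single_apply,
        pderiv_two, pderiv_three]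
      try ring
    · simp [gK0, K0y, pderiv_mul, pderiv_pow, pderiv_X, Pi.single_apply,
        pderiv_two, pderiv_three]
      try ring
  rw [e1, e2]
  exact h

set_option maxHeartbeats 4000000 in
theorem hasFDerivAt_K1 (b : ℂ) (w : Fin 3 → ℂ) :
    HasFDerivAt (fun w : Fin 3 → ℂ => K1 b (w 0) (w 1) (w 2))
      (lin (gK1 b (w 0) (w 1) (w 2))) w := by
  have h := hasFDerivAt_eval ((C b+1)^2*C b*X 0^4*X 1^2 - (C b+1)^2*X 0^4*X 1*X 2 + (C b+1)*C b*(2*C b+1)*X 0^3*X 1^3 - 3*(C b+1)*C b*X 0^3*X 1^2*X 2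
  + 3*(C b+1)*X 0^3*X 1*X 2^2 + (C b+1)*X 0^3*X 2^3 + (C b+1)*C b^2*X 0^2*X 1^4 - (C b+1)*C b*X 0^2*X 1^3*X 2
  - (C b+1)*X 0^2*X 1*X 2^3 - (C b+1)*X 0^2*X 2^4 + C b^2*X 0*X 1^4*X 2 - 3*C b*X 0*X 1^3*X 2^2 - 3*C b*X 0*X 1^2*X 2^3
  - (2*C b+1)*X 0*X 1*X 2^4 - C b*X 1^3*X 2^3 - C b*X 1^2*X 2^4 : MvPolynomial (Fin 3) ℂ) w
  have e1 : (fun w : Fin 3 → ℂ => K1 b (w 0) (w 1) (w 2)) = (fun w : Fin 3 → ℂ => eval w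
      ((C b+1)^2*C b*X 0^4*X 1^2 - (C b+1)^2*X 0^4*X 1*X 2 + (C b+1)*C b*(2*C b+1)*X 0^3*X 1^3 - 3*(C b+1)*C b*X 0^3*X 1^2*X 2
  + 3*(C b+1)*X 0^3*X 1*X 2^2 + (C b+1)*X 0^3*X 2^3 + (C b+1)*C b^2*X 0^2*X 1^4 - (C b+1)*C b*X 0^2*X 1^3*X 2
  - (C b+1)*X 0^2*X 1*X 2^3 - (C b+1)*X 0^2*X 2^4 + C b^2*X 0*X 1^4*X 2 - 3*C b*X 0*X 1^3*X 2^2 - 3*C b*X 0*X 1^2*X 2^3
  - (2*C b+1)*X 0*X 1*X 2^4 - C b*X 1^3*X 2^3 - C b*X 1^2*X 2^4 : MvPolynomial (Fin 3) ℂ)) := by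
    funext w
    simp [K1]
  have e2 : gK1 b (w 0) (w 1) (w 2) = (fun i => eval w (pderiv i
      ((C b+1)^2*C b*X 0^4*X 1^2 - (C b+1)^2*X 0^4*X 1*X 2 + (C b+1)*C b*(2*C b+1)*X 0^3*X 1^3 - 3*(C b+1)*C b*X 0^3*X 1^2*X 2
  + 3*(C b+1)*X 0^3*X 1*X 2^2 + (C b+1)*X 0^3*X 2^3 + (C b+1)*C b^2*X 0^2*X 1^4 - (C b+1)*C b*X 0^2*X 1^3*X 2
  - (C b+1)*X 0^2*X 1*X 2^3 - (C b+1)*X 0^2*X 2^4 + C b^2*X 0*X 1^4*X 2 - 3*C b*X 0*X 1^3*X 2^2 - 3*C b*X 0*X 1^2*X 2^3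
  - (2*C b+1)*X 0*X 1*X 2^4 - C b*X 1^3*X 2^3 - C b*X 1^2*X 2^4 : MvPolynomial (Fin 3) ℂ))) := by
    funext i
    fin_cases i
    · simp [gK1, K1p, pderiv_mul, pderiv_pow, pderiv_X, Pi.single_apply,
        pderiv_two, pderiv_three]
      try ring
    · simp [gK1, K1q, pderiv_mul, pderiv_pow, pderiv_X, Pi.single_apply,
        pderiv_two, pderiv_three]
      try ring
    · simp [gK1, K1y, pderiv_mul, pderiv_pow, pderiv_X, Pi.single_apply,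
        pderiv_two, pderiv_three]
      try ring
  rw [e1, e2]
  exact h

set_option maxHeartbeats 4000000 in
theorem id1_re (b p q y : ℂ) :
    4 * ((K0 b p q y)^2 - (K1 b p q y)^2) =
      -(((B0 b p q y)^2 - (B1 b p q y)^2)^2 - (2*(B0 b p q y)*(B1 b p q y))^2)
      + 2*(2*b+1)*(((A0 b p q y)^2 - (A1 b p q y)^2)*((B0 b p q y)^2 - (B1 b p q y)^2)
        - (2*(A0 b p q y)*(A1 b p q y))*(2*(B0 b p q y)*(B1 b p q y)))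
      - (((A0 b p q y)^2 - (A1 b p q y)^2)^2 - (2*(A0 b p q y)*(A1 b p q y))^2)
      - 4*(b+1)*b*(F b p q y)^4 := by
  simp only [F, A0, A1, B0, B1, K0, K1]
  ring

set_option maxHeartbeats 4000000 in
theorem id1_im (b p q y : ℂ) :
    8 * (K0 b p q y) * (K1 b p q y) =
      -(2*((B0 b p q y)^2 - (B1 b p q y)^2) * (2*(B0 b p q y)*(B1 b p q y)))
      + 2*(2*b+1)*(((A0 b p q y)^2 - (A1 b p q y)^2)*(2*(B0 b p q y)*(B1 b p q y))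
        + (2*(A0 b p q y)*(A1 b p q y))*((B0 b p q y)^2 - (B1 b p q y)^2))
      - (2*((A0 b p q y)^2 - (A1 b p q y)^2) * (2*(A0 b p q y)*(A1 b p q y))) := by
  simp only [A0, A1, B0, B1, K0, K1]
  ring

set_option maxHeartbeats 4000000 in
theorem id2_re (b p q y : ℂ) :
    det3 (gF b p q y) (gA0 b p q y) (gB0 b p q y) - det3 (gF b p q y) (gA1 b p q y) (gB1 b p q y)
      = 6 * K0 b p q y := by
  simp only [det3, gF, gA0, gA1, gB0, gB1, K0, Matrix.cons_val_zero, Matrix.cons_val_one,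
    Matrix.cons_val, Fp, Fq, Fy, A0p, A0q, A0y, A1p, A1q, A1y, B0p, B0q, B0y, B1p, B1q, B1y]
  ring

set_option maxHeartbeats 4000000 in
theorem id2_im (b p q y : ℂ) :
    det3 (gF b p q y) (gA0 b p q y) (gB1 b p q y) + det3 (gF b p q y) (gA1 b p q y) (gB0 b p q y)
      = 6 * K1 b p q y := by
  simp only [det3, gF, gA0, gA1, gB0, gB1, K1, Matrix.cons_val_zero, Matrix.cons_val_one,
    Matrix.cons_val, Fp, Fq, Fy, A0p, A0q, A0y, A1p, A1q, A1y, B0p, B0q, B0y, B1p, B1q, B1y]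
  ring

set_option maxHeartbeats 4000000 in
theorem id3_re (b p q y : ℂ) :
    det3 (gF b p q y) (gA0 b p q y) (gK0 b p q y) - det3 (gF b p q y) (gA1 b p q y) (gK1 b p q y)
      = 3 * (-((B0 b p q y)^3 - 3*(B0 b p q y)*(B1 b p q y)^2)
        + (2*b+1)*(((A0 b p q y)^2-(A1 b p q y)^2)*(B0 b p q y)
          - 2*(A0 b p q y)*(A1 b p q y)*(B1 b p q y))) := by
  simp only [det3, gF, gA0, gA1, gK0, gK1, A0, A1, B0, B1, Matrix.cons_val_zero,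
    Matrix.cons_val_one, Matrix.cons_val, Fp, Fq, Fy, A0p, A0q, A0y, A1p, A1q, A1y, K0p, K0q, K0y,
    K1p, K1q, K1y]
  ring

set_option maxHeartbeats 4000000 in
theorem id3_im (b p q y : ℂ) :
    det3 (gF b p q y) (gA0 b p q y) (gK1 b p q y) + det3 (gF b p q y) (gA1 b p q y) (gK0 b p q y)
      = 3 * (-(3*(B0 b p q y)^2*(B1 b p q y) - (B1 b p q y)^3)
        + (2*b+1)*(((A0 b p q y)^2-(A1 b p q y)^2)*(B1 b p q y)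
          + 2*(A0 b p q y)*(A1 b p q y)*(B0 b p q y))) := by
  simp only [det3, gF, gA0, gA1, gK0, gK1, A0, A1, B0, B1, Matrix.cons_val_zero,
    Matrix.cons_val_one, Matrix.cons_val, Fp, Fq, Fy, A0p, A0q, A0y, A1p, A1q, A1y, K0p, K0q, K0y,
    K1p, K1q, K1y]
  ring

set_option maxHeartbeats 4000000 in
theorem id4_re (b p q y : ℂ) :
    det3 (gF b p q y) (gB0 b p q y) (gK0 b p q y) - det3 (gF b p q y) (gB1 b p q y) (gK1 b p q y)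
      = 3 * (((A0 b p q y)^3 - 3*(A0 b p q y)*(A1 b p q y)^2)
        - (2*b+1)*(((B0 b p q y)^2-(B1 b p q y)^2)*(A0 b p q y)
          - 2*(B0 b p q y)*(B1 b p q y)*(A1 b p q y))) := by
  simp only [det3, gF, gB0, gB1, gK0, gK1, A0, A1, B0, B1, Matrix.cons_val_zero,
    Matrix.cons_val_one, Matrix.cons_val, Fp, Fq, Fy, B0p, B0q, B0y, B1p, B1q, B1y, K0p, K0q, K0y,
    K1p, K1q, K1y]
  ring

set_option maxHeartbeats 4000000 in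
theorem id4_im (b p q y : ℂ) :
    det3 (gF b p q y) (gB0 b p q y) (gK1 b p q y) + det3 (gF b p q y) (gB1 b p q y) (gK0 b p q y)
      = 3 * ((3*(A0 b p q y)^2*(A1 b p q y) - (A1 b p q y)^3)
        - (2*b+1)*(((B0 b p q y)^2-(B1 b p q y)^2)*(A1 b p q y)
          + 2*(B0 b p q y)*(B1 b p q y)*(A0 b p q y))) := by
  simp only [det3, gF, gB0, gB1, gK0, gK1, A0, A1, B0, B1, Matrix.cons_val_zero,
    Matrix.cons_val_one, Matrix.cons_val, Fp, Fq, Fy, B0p, B0q, B0y, B1p, B1q, B1y, K0p, K0q, K0y,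
    K1p, K1q, K1y]
  ring

end Pool.Agent.Helper417.CubicId
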