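import Mathlib
import Pool.Agent.Helper417.CubicGrad
import Pool.Agent.Helper417.CubicId

set_option linter.all false

namespace Pool.Agent.Helper417.CubicMain

open Pool.Agent.Helper417.CubicGrad Pool.Agent.Helper417.CubicId Complex

theorem sq_split (u v : ℂ) : (u + I * v) ^ 2 = (u ^ 2 - v ^ 2) + I * (2 * u * v) := by
  linear_combination v ^ 2 * I_sq

theorem mul_split (u v s t : ℂ) :
    (u + I * v) * (s + I * t) = (u * s - v * t) + I * (u * t + v * s) := by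
  linear_combination v * t * I_sq

theorem pow4_split (u v : ℂ) : (u + I * v) ^ 4 =
    ((u ^ 2 - v ^ 2) ^ 2 - (2 * u * v) ^ 2) + I * (2 * (u ^ 2 - v ^ 2) * (2 * u * v)) := by
  rw [show (u + I * v) ^ 4 = ((u + I * v) ^ 2) ^ 2 by ring, sq_split, sq_split]

theorem sqsq_split (u v s t : ℂ) : (u + I * v) ^ 2 * (s + I * t) ^ 2 =
    ((u ^ 2 - v ^ 2) * (s ^ 2 - t ^ 2) - (2 * u * v) * (2 * s * t)) +
    I * ((u ^ 2 - v ^ 2) * (2 * s * t) + (2 * u * v) * (s ^ 2 - t ^ 2)) := by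
  rw [sq_split, sq_split, mul_split]

theorem sqmul_split (u v s t : ℂ) : (u + I * v) ^ 2 * (s + I * t) =
    ((u ^ 2 - v ^ 2) * s - (2 * u * v) * t) + I * ((u ^ 2 - v ^ 2) * t + (2 * u * v) * s) := by
  rw [sq_split, mul_split]

def A (b p q y : ℂ) : ℂ := A0 b p q y + I * A1 b p q y
def B (b p q y : ℂ) : ℂ := B0 b p q y + I * B1 b p q y
def K (b p q y : ℂ) : ℂ := K0 b p q y + I * K1 b p q y

noncomputable def gA (b p q y : ℂ) : Fin 3 → ℂ := gA0 b p q y + I • gA1 b p q y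
noncomputable def gB (b p q y : ℂ) : Fin 3 → ℂ := gB0 b p q y + I • gB1 b p q y
noncomputable def gK (b p q y : ℂ) : Fin 3 → ℂ := gK0 b p q y + I • gK1 b p q y

theorem hasFDerivAt_A (b : ℂ) (w : Fin 3 → ℂ) :
    HasFDerivAt (fun w : Fin 3 → ℂ => A b (w 0) (w 1) (w 2))
      (lin (gA b (w 0) (w 1) (w 2))) w := by
  have h := (hasFDerivAt_A0 b w).add ((hasFDerivAt_A1 b w).const_mul I)
  rw [← lin_smul, ← lin_add] at h
  exact h

theorem hasFDerivAt_B (b : ℂ) (w : Fin 3 → ℂ) :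
    HasFDerivAt (fun w : Fin 3 → ℂ => B b (w 0) (w 1) (w 2))
      (lin (gB b (w 0) (w 1) (w 2))) w := by
  have h := (hasFDerivAt_B0 b w).add ((hasFDerivAt_B1 b w).const_mul I)
  rw [← lin_smul, ← lin_add] at h
  exact h

theorem hasFDerivAt_K (b : ℂ) (w : Fin 3 → ℂ) :
    HasFDerivAt (fun w : Fin 3 → ℂ => K b (w 0) (w 1) (w 2))
      (lin (gK b (w 0) (w 1) (w 2))) w := by
  have h := (hasFDerivAt_K0 b w).add ((hasFDerivAt_K1 b w).const_mul I)
  rw [← lin_smul, ← lin_add] at h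
  exact h

theorem id1 (b p q y : ℂ) :
    4 * (K b p q y) ^ 2 = -(B b p q y) ^ 4 + 2 * (2 * b + 1) * ((A b p q y) ^ 2 * (B b p q y) ^ 2)
      - (A b p q y) ^ 4 - 4 * (b + 1) * b * (F b p q y) ^ 4 := by
  rw [K, A, B, sq_split, sqsq_split, pow4_split, pow4_split]
  linear_combination id1_re b p q y + I * id1_im b p q y

theorem det3_split (f u0 u1 v0 v1 : Fin 3 → ℂ) :
    det3 f (u0 + I • u1) (v0 + I • v1) =
      (det3 f u0 v0 - det3 f u1 v1) + I * (det3 f u0 v1 + det3 f u1 v0) := by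
  simp only [det3, Pi.add_apply, Pi.smul_apply, smul_eq_mul]
  linear_combination (f 0 * (u1 1 * v1 2 - u1 2 * v1 1) - f 1 * (u1 0 * v1 2 - u1 2 * v1 0)
    + f 2 * (u1 0 * v1 1 - u1 1 * v1 0)) * I_sq

theorem id2 (b p q y : ℂ) :
    det3 (gF b p q y) (gA b p q y) (gB b p q y) = 6 * K b p q y := by
  rw [gA, gB, det3_split, id2_re, id2_im, K]
  ring

theorem id3 (b p q y : ℂ) :
    det3 (gF b p q y) (gA b p q y) (gK b p q y) =
      3 * (-(B b p q y) ^ 3 + (2 * b + 1) * (A b p q y) ^ 2 * (B b p q y)) := by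
  rw [gA, gK, det3_split, id3_re, id3_im, A, B]
  generalize A0 b p q y = a0
  generalize A1 b p q y = a1
  generalize B0 b p q y = b0
  generalize B1 b p q y = b1
  have e2 : (b0 + I * b1) ^ 3 = (b0 ^ 3 - 3 * b0 * b1 ^ 2) + I * (3 * b0 ^ 2 * b1 - b1 ^ 3) := by
    linear_combination (3 * b0 * b1 ^ 2 + I * b1 ^ 3) * I_sq
  rw [e2, mul_assoc (2 * b + 1), sqmul_split]
  ring

theorem id4 (b p q y : ℂ) :
    det3 (gF b p q y) (gB b p q y) (gK b p q y) =
      3 * ((A b p q y) ^ 3 - (2 * b + 1) * (B b p q y) ^ 2 * (A b p q y)) := by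
  rw [gB, gK, det3_split, id4_re, id4_im, A, B]
  generalize A0 b p q y = a0
  generalize A1 b p q y = a1
  generalize B0 b p q y = b0
  generalize B1 b p q y = b1
  have e2 : (a0 + I * a1) ^ 3 = (a0 ^ 3 - 3 * a0 * a1 ^ 2) + I * (3 * a0 ^ 2 * a1 - a1 ^ 3) := by
    linear_combination (3 * a0 * a1 ^ 2 + I * a1 ^ 3) * I_sq
  rw [e2, mul_assoc (2 * b + 1), sqmul_split]
  ring

/-- The auxiliary entire function of one variable. -/
theorem exists_U (m : ℂ) (hm : m ≠ 0) : ∃ U U' : ℂ → ℂ, (∀ z, HasDerivAt U (U' z) z) ∧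
    ∀ z, z + 2 * (z ^ 2 - m ^ 2) * U' z = m * exp (I * Real.pi * (m - z) / (2 * m)) := by
  set g : ℂ → ℂ := fun z => m * exp (I * Real.pi * (m - z) / (2 * m)) - z with hg
  have hgd : Differentiable ℂ g := by
    simp only [hg]
    fun_prop
  have g1 : g m = 0 := by simp [hg]
  have g2 : g (-m) = 0 := by
    have : I * Real.pi * (m - -m) / (2 * m) = Real.pi * I := by
      field_simp
      ring
    simp only [hg, this, exp_pi_mul_I]
    ring
  set h1 : ℂ → ℂ := dslope g m with hh1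
  have h1d : Differentiable ℂ h1 := by
    rw [← differentiableOn_univ]
    exact (Complex.differentiableOn_dslope Filter.univ_mem).2 hgd.differentiableOn
  set h2 : ℂ → ℂ := dslope h1 (-m) with hh2
  have h2d : Differentiable ℂ h2 := by
    rw [← differentiableOn_univ]
    exact (Complex.differentiableOn_dslope Filter.univ_mem).2 h1d.differentiableOn
  have k1 : ∀ z, (z - m) * h1 z = g z := by
    intro z
    have := sub_smul_dslope g m z
    rw [smul_eq_mul, g1, sub_zero] at this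
    exact this
  have hmm : -m - m ≠ 0 := by
    intro h
    apply hm
    linear_combination (-1/2) * h
  have h1m : h1 (-m) = 0 := by
    have := k1 (-m)
    rw [g2] at this
    exact (mul_eq_zero.1 this).resolve_left hmm
  have k2 : ∀ z, (z + m) * h2 z = h1 z := by
    intro z
    have := sub_smul_dslope h1 (-m) z
    rw [smul_eq_mul, h1m, sub_zero, sub_neg_eq_add] at this
    exact this
  obtain ⟨U, hU⟩ := (h2d.const_mul (1/2 : ℂ)).isExactOn_univ
  refine ⟨U, fun z => (1/2 : ℂ) * h2 z, fun z => hU z (Set.mem_univ z), fun z => ?_⟩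
  have e1 := k1 z
  have e2 := k2 z
  have e3 : g z = m * exp (I * Real.pi * (m - z) / (2 * m)) - z := rfl
  linear_combination (z - m) * e2 + e1 + e3

/-- `{g ≠ 0}/ℂ^*` immerses holomorphically in `ℂ²`. -/
def Good (g : (Fin 3 → ℂ) → ℂ) : Prop :=
  ∃ Φ : (Fin 3 → ℂ) → (Fin 2 → ℂ),
    DifferentiableOn ℂ Φ {z : Fin 3 → ℂ | g z ≠ 0} ∧
    (∀ z : Fin 3 → ℂ, g z ≠ 0 → ∀ c : ℂ, c ≠ 0 → Φ (c • z) = Φ z) ∧
    (∀ z : Fin 3 → ℂ, g z ≠ 0 → Function.Surjective (fderiv ℂ Φ z))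

/-- Two linear forms independent modulo a third one are jointly surjective. -/
theorem surj_of_det (f g1 g2 : Fin 3 → ℂ) (hD : det3 f g1 g2 ≠ 0) (c1 c2 : ℂ) :
    ∃ v : Fin 3 → ℂ, lin g1 v = c1 ∧ lin g2 v = c2 := by
  set D := det3 f g1 g2 with hDdef
  refine ⟨![(c1 * (g2 1 * f 2 - g2 2 * f 1) + c2 * (f 1 * g1 2 - f 2 * g1 1)) / D,
    (c1 * (g2 2 * f 0 - g2 0 * f 2) + c2 * (f 2 * g1 0 - f 0 * g1 2)) / D,
    (c1 * (g2 0 * f 1 - g2 1 * f 0) + c2 * (f 0 * g1 1 - f 1 * g1 0)) / D], ?_, ?_⟩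
  · rw [lin_apply, Fin.sum_univ_three]
    simp only [Matrix.cons_val_zero, Matrix.cons_val_one, Matrix.cons_val]
    field_simp
    rw [hDdef, det3]
    ring
  · rw [lin_apply, Fin.sum_univ_three]
    simp only [Matrix.cons_val_zero, Matrix.cons_val_one, Matrix.cons_val]
    field_simp
    rw [hDdef, det3]
    ring

theorem F_smul (b c p q y : ℂ) : F b (c * p) (c * q) (c * y) = c ^ 3 * F b p q y := by
  simp only [F]
  ring

theorem A_smul (b c p q y : ℂ) : A b (c * p) (c * q) (c * y) = c ^ 3 * A b p q y := by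
  simp only [A, A0, A1]
  ring

theorem B_smul (b c p q y : ℂ) : B b (c * p) (c * q) (c * y) = c ^ 3 * B b p q y := by
  simp only [B, B0, B1]
  ring

theorem K_smul (b c p q y : ℂ) : K b (c * p) (c * q) (c * y) = c ^ 6 * K b p q y := by
  simp only [K, K0, K1]
  ring

/-- The algebraic heart: the Jacobian of the immersion. -/
theorem jac_identity (f : Fin 3 → ℂ) (GF GA GB GK : Fin 3 → ℂ) (Fv Av Bv Kv e u' b : ℂ)
    (hF : Fv ≠ 0)
    (h1 : 4 * Kv ^ 2 = -Bv ^ 4 + 2 * (2 * b + 1) * (Av ^ 2 * Bv ^ 2) - Av ^ 4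
      - 4 * (b + 1) * b * Fv ^ 4)
    (h2 : det3 GF GA GB = 6 * Kv)
    (h3 : det3 GF GA GK = 3 * (-Bv ^ 3 + (2 * b + 1) * Av ^ 2 * Bv))
    (h4 : det3 GF GB GK = 3 * (Av ^ 3 - (2 * b + 1) * Bv ^ 2 * Av)) :
    det3 GF
      (e • ((Fv ^ 2)⁻¹ • (Fv • GB - Bv • GF) + (Bv / Fv * u') • ((Fv ^ 3)⁻¹ • (Fv • GK - (2 * Kv) • GF))))
      (e • ((Fv ^ 2)⁻¹ • (Fv • GA - Av • GF) + (Av / Fv * u') • ((Fv ^ 3)⁻¹ • (Fv • GK - (2 * Kv) • GF))))
    = -6 * e ^ 2 * (Kv / Fv ^ 2 + 2 * ((Kv / Fv ^ 2) ^ 2 + (b + 1) * b) * u') := by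
  have key : det3 GF
      (e • ((Fv ^ 2)⁻¹ • (Fv • GB - Bv • GF) + (Bv / Fv * u') • ((Fv ^ 3)⁻¹ • (Fv • GK - (2 * Kv) • GF))))
      (e • ((Fv ^ 2)⁻¹ • (Fv • GA - Av • GF) + (Av / Fv * u') • ((Fv ^ 3)⁻¹ • (Fv • GK - (2 * Kv) • GF))))
      = e ^ 2 * ((Fv ^ 2)⁻¹ * (-(det3 GF GA GB)) + (Fv⁻¹) ^ 4 * u' * (Av * det3 GF GB GK
        - Bv * det3 GF GA GK)) := by
    simp only [det3, Pi.add_apply, Pi.sub_apply, Pi.smul_apply, smul_eq_mul]
    field_simp
    ring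
  rw [key, h2, h3, h4]
  have h1' : (Kv / Fv ^ 2) ^ 2 + (b + 1) * b = (1/4 : ℂ) * (Fv⁻¹) ^ 4 *
      (-Bv ^ 4 + 2 * (2 * b + 1) * (Av ^ 2 * Bv ^ 2) - Av ^ 4) := by
    field_simp
    linear_combination h1
  rw [h1']
  field_simp
  ring

theorem lin_sub {n : ℕ} (g h : Fin n → ℂ) : lin (g - h) = lin g - lin h := by
  ext v
  simp [lin_apply, sub_mul, Finset.sum_sub_distrib]

theorem hasFDerivAt_div' {n : ℕ} {g h : (Fin n → ℂ) → ℂ} {G H : Fin n → ℂ} {w : Fin n → ℂ}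
    (hg : HasFDerivAt g (lin G) w) (hh : HasFDerivAt h (lin H) w) (hw : h w ≠ 0) :
    HasFDerivAt (fun w => g w / h w) (lin ((h w ^ 2)⁻¹ • (h w • G - g w • H))) w := by
  have h1 : HasFDerivAt (fun w => (h w)⁻¹) ((-((h w) ^ 2)⁻¹) • lin H) w :=
    (hasDerivAt_inv hw).comp_hasFDerivAt w hh
  have h2 := hg.mul h1
  have e : (fun w => g w / h w) = (fun w => g w * (h w)⁻¹) := by
    funext w
    rw [div_eq_mul_inv]
  rw [e]
  refine h2.congr_fderiv ?_
  rw [lin_smul, lin_sub, lin_smul, lin_smul]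
  ext v
  simp only [_root_.add_apply, _root_.sub_apply, _root_.smul_apply, smul_eq_mul]
  field_simp
  ring

theorem good_normal (b : ℂ) (hb : b ≠ 0) (hb1 : b + 1 ≠ 0) :
    Good (fun w => F b (w 0) (w 1) (w 2)) := by
  obtain ⟨m, hm⟩ : ∃ m : ℂ, m ^ 2 = -((b + 1) * b) :=
    IsAlgClosed.exists_pow_nat_eq _ (by norm_num)
  have hm0 : m ≠ 0 := by
    rintro rfl
    have : (b + 1) * b = 0 := by linear_combination hm
    rcases mul_eq_zero.1 this with h | h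
    · exact hb1 h
    · exact hb h
  obtain ⟨U, U', hU, hUU⟩ := exists_U m hm0
  set Ff : (Fin 3 → ℂ) → ℂ := fun w => F b (w 0) (w 1) (w 2) with hFf
  set Af : (Fin 3 → ℂ) → ℂ := fun w => A b (w 0) (w 1) (w 2) with hAf
  set Bf : (Fin 3 → ℂ) → ℂ := fun w => B b (w 0) (w 1) (w 2) with hBf
  set Kf : (Fin 3 → ℂ) → ℂ := fun w => K b (w 0) (w 1) (w 2) with hKf
  set Y : (Fin 3 → ℂ) → ℂ := fun w => Kf w / Ff w ^ 2 with hY
  have hder : ∀ w : Fin 3 → ℂ, Ff w ≠ 0 →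
      HasFDerivAt (fun w => Bf w / Ff w * exp (U (Y w)))
        (lin (exp (U (Y w)) • ((Ff w ^ 2)⁻¹ • (Ff w • gB b (w 0) (w 1) (w 2)
          - Bf w • gF b (w 0) (w 1) (w 2)) + (Bf w / Ff w * U' (Y w)) • ((Ff w ^ 3)⁻¹ •
          (Ff w • gK b (w 0) (w 1) (w 2) - (2 * Kf w) • gF b (w 0) (w 1) (w 2)))))) w ∧
      HasFDerivAt (fun w => Af w / Ff w * exp (U (Y w)))
        (lin (exp (U (Y w)) • ((Ff w ^ 2)⁻¹ • (Ff w • gA b (w 0) (w 1) (w 2)
          - Af w • gF b (w 0) (w 1) (w 2)) + (Af w / Ff w * U' (Y w)) • ((Ff w ^ 3)⁻¹ •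
          (Ff w • gK b (w 0) (w 1) (w 2) - (2 * Kf w) • gF b (w 0) (w 1) (w 2)))))) w := by
    intro w hw
    have dF : HasFDerivAt Ff (lin (gF b (w 0) (w 1) (w 2))) w := hasFDerivAt_F b w
    have dA : HasFDerivAt Af (lin (gA b (w 0) (w 1) (w 2))) w := hasFDerivAt_A b w
    have dB : HasFDerivAt Bf (lin (gB b (w 0) (w 1) (w 2))) w := hasFDerivAt_B b w
    have dK : HasFDerivAt Kf (lin (gK b (w 0) (w 1) (w 2))) w := hasFDerivAt_K b w
    have dF2 : HasFDerivAt (fun w => Ff w ^ 2) (lin ((2 * Ff w) • gF b (w 0) (w 1) (w 2))) w := by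
      have := dF.pow 2
      rw [lin_smul]
      refine this.congr_fderiv ?_
      simp
    have dY : HasFDerivAt Y (lin ((Ff w ^ 3)⁻¹ •
          (Ff w • gK b (w 0) (w 1) (w 2) - (2 * Kf w) • gF b (w 0) (w 1) (w 2)))) w := by
      have := hasFDerivAt_div' dK dF2 (pow_ne_zero 2 hw)
      refine this.congr_fderiv ?_
      congr 1
      funext i
      simp only [Pi.smul_apply, Pi.sub_apply, smul_eq_mul]
      field_simp
    have dE : HasFDerivAt (fun w => exp (U (Y w))) (exp (U (Y w)) • (U' (Y w) • lin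
        ((Ff w ^ 3)⁻¹ • (Ff w • gK b (w 0) (w 1) (w 2)
          - (2 * Kf w) • gF b (w 0) (w 1) (w 2))))) w :=
      ((hU (Y w)).comp_hasFDerivAt w dY).cexp
    refine ⟨?_, ?_⟩
    · have h1 := (hasFDerivAt_div' dB dF hw).mul dE
      refine h1.congr_fderiv ?_
      simp only [lin_smul, lin_add, lin_sub]
      ext v
      simp only [_root_.add_apply, _root_.sub_apply, _root_.smul_apply, smul_eq_mul]
      ring
    · have h1 := (hasFDerivAt_div' dA dF hw).mul dE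
      refine h1.congr_fderiv ?_
      simp only [lin_smul, lin_add, lin_sub]
      ext v
      simp only [_root_.add_apply, _root_.sub_apply, _root_.smul_apply, smul_eq_mul]
      ring
  refine ⟨fun w => ![Bf w / Ff w * exp (U (Y w)), Af w / Ff w * exp (U (Y w))], ?_, ?_, ?_⟩
  · intro w hw
    refine DifferentiableAt.differentiableWithinAt ?_
    rw [differentiableAt_pi]
    intro i
    fin_cases i
    · exact (hder w hw).1.differentiableAt
    · exact (hder w hw).2.differentiableAt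
  · intro z hz c hc
    have hz' : Ff z ≠ 0 := hz
    have eF : Ff (c • z) = c ^ 3 * Ff z := F_smul b c _ _ _
    have eA : Af (c • z) = c ^ 3 * Af z := A_smul b c _ _ _
    have eB : Bf (c • z) = c ^ 3 * Bf z := B_smul b c _ _ _
    have eK : Kf (c • z) = c ^ 6 * Kf z := K_smul b c _ _ _
    have eY : Y (c • z) = Y z := by
      simp only [hY]
      rw [eF, eK]
      field_simp
    have e1 : Bf (c • z) / Ff (c • z) = Bf z / Ff z := by
      rw [eF, eB]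
      field_simp
    have e2 : Af (c • z) / Ff (c • z) = Af z / Ff z := by
      rw [eF, eA]
      field_simp
    simp only [eY, e1, e2]
  · intro z hz t
    have hz' : Ff z ≠ 0 := hz
    obtain ⟨d1, d2⟩ := hder z hz'
    have hfd : HasFDerivAt (fun w => ![Bf w / Ff w * exp (U (Y w)), Af w / Ff w * exp (U (Y w))])
        (ContinuousLinearMap.pi ![(lin (exp (U (Y z)) • ((Ff z ^ 2)⁻¹ • (Ff z • gB b (z 0) (z 1) (z 2)
          - Bf z • gF b (z 0) (z 1) (z 2)) + (Bf z / Ff z * U' (Y z)) • ((Ff z ^ 3)⁻¹ •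
          (Ff z • gK b (z 0) (z 1) (z 2) - (2 * Kf z) • gF b (z 0) (z 1) (z 2)))))),
          (lin (exp (U (Y z)) • ((Ff z ^ 2)⁻¹ • (Ff z • gA b (z 0) (z 1) (z 2)
          - Af z • gF b (z 0) (z 1) (z 2)) + (Af z / Ff z * U' (Y z)) • ((Ff z ^ 3)⁻¹ •
          (Ff z • gK b (z 0) (z 1) (z 2) - (2 * Kf z) • gF b (z 0) (z 1) (z 2))))))]) z := by
      rw [hasFDerivAt_pi]
      intro i
      fin_cases i
      · exact d1
      · exact d2
    rw [hfd.fderiv]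
    have hD := jac_identity (gF b (z 0) (z 1) (z 2)) (gF b (z 0) (z 1) (z 2))
      (gA b (z 0) (z 1) (z 2)) (gB b (z 0) (z 1) (z 2)) (gK b (z 0) (z 1) (z 2))
      (Ff z) (Af z) (Bf z) (Kf z) (exp (U (Y z))) (U' (Y z)) b hz' (id1 b _ _ _) (id2 b _ _ _)
      (id3 b _ _ _) (id4 b _ _ _)
    have hval : (Kf z / Ff z ^ 2 + 2 * ((Kf z / Ff z ^ 2) ^ 2 + (b + 1) * b) * U' (Y z)) ≠ 0 := by
      have h := hUU (Y z)
      have e : Y z + 2 * ((Y z) ^ 2 - m ^ 2) * U' (Y z) =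
          Kf z / Ff z ^ 2 + 2 * ((Kf z / Ff z ^ 2) ^ 2 + (b + 1) * b) * U' (Y z) := by
        rw [hm]
        simp only [hY]
        ring
      rw [← e, h]
      exact mul_ne_zero hm0 (exp_ne_zero _)
    have hne : -6 * exp (U (Y z)) ^ 2 *
        (Kf z / Ff z ^ 2 + 2 * ((Kf z / Ff z ^ 2) ^ 2 + (b + 1) * b) * U' (Y z)) ≠ 0 := by
      refine mul_ne_zero (mul_ne_zero (by norm_num) (pow_ne_zero 2 (exp_ne_zero _))) hval
    rw [← hD] at hne
    obtain ⟨v, hv1, hv2⟩ := surj_of_det _ _ _ hne (t 0) (t 1)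
    refine ⟨v, ?_⟩
    funext i
    fin_cases i
    · exact hv1
    · exact hv2

end Pool.Agent.Helper417.CubicMain
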