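import Mathlib
import Pool.Agent.Helper417.CubicGrad
import Pool.Agent.Helper417.CubicId
import Pool.Agent.Helper417.CubicMain
import Pool.Agent.Helper417.CubicFlex

set_option linter.all false

namespace Pool.Agent.Helper417.CubicNormal

open MvPolynomial Pool.Agent.Helper417.CubicGrad Pool.Agent.Helper417.CubicMain
  Pool.Agent.Helper417.CubicFlex

/-- the linear map with columns `v p n` -/
def lmap (v p n : Fin 3 → ℂ) : (Fin 3 → ℂ) →ₗ[ℂ] (Fin 3 → ℂ) where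
  toFun w := w 0 • v + w 1 • p + w 2 • n
  map_add' a b := by
    simp only [Pi.add_apply, add_smul]
    abel
  map_smul' c a := by
    simp only [Pi.smul_apply, smul_eq_mul, RingHom.id_apply, mul_smul, smul_add]

theorem lmap_bij (v p n : Fin 3 → ℂ)
    (hinj : ∀ x y z : ℂ, x • v + y • p + z • n = 0 → x = 0 ∧ y = 0 ∧ z = 0) :
    Function.Bijective (lmap v p n) := by
  have hi : Function.Injective (lmap v p n) := by
    rw [← LinearMap.ker_eq_bot, LinearMap.ker_eq_bot']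
    intro w hw
    obtain ⟨h0, h1, h2⟩ := hinj (w 0) (w 1) (w 2) hw
    funext i
    fin_cases i
    · exact h0
    · exact h1
    · exact h2
  exact ⟨hi, LinearMap.injective_iff_surjective.1 hi⟩

noncomputable def lequiv (v p n : Fin 3 → ℂ)
    (hinj : ∀ x y z : ℂ, x • v + y • p + z • n = 0 → x = 0 ∧ y = 0 ∧ z = 0) :
    (Fin 3 → ℂ) ≃L[ℂ] (Fin 3 → ℂ) :=
  (LinearEquiv.ofBijective (lmap v p n) (lmap_bij v p n hinj)).toContinuousLinearEquiv

theorem lequiv_apply (v p n : Fin 3 → ℂ)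
    (hinj : ∀ x y z : ℂ, x • v + y • p + z • n = 0 → x = 0 ∧ y = 0 ∧ z = 0) (w : Fin 3 → ℂ) :
    lequiv v p n hinj w = w 0 • v + w 1 • p + w 2 • n := rfl

theorem good_of_basis (g : (Fin 3 → ℂ) → ℂ) (v p n : Fin 3 → ℂ)
    (hinj : ∀ x y z : ℂ, x • v + y • p + z • n = 0 → x = 0 ∧ y = 0 ∧ z = 0)
    (h : Good (fun w => g (w 0 • v + w 1 • p + w 2 • n))) : Good g := by
  obtain ⟨Φ, h1, h2, h3⟩ := h
  set L := lequiv v p n hinj with hL
  have hLa : ∀ z, g z = g ((L.symm z) 0 • v + (L.symm z) 1 • p + (L.symm z) 2 • n) := by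
    intro z
    conv_lhs => rw [← L.apply_symm_apply z]
    rw [hL, lequiv_apply]
  refine ⟨fun z => Φ (L.symm z), ?_, ?_, ?_⟩
  · intro z hz
    have hz' : g ((L.symm z) 0 • v + (L.symm z) 1 • p + (L.symm z) 2 • n) ≠ 0 := by
      rw [← hLa]; exact hz
    have := (h1 (L.symm z) hz').comp z (L.symm.differentiable.differentiableAt (x := z)).differentiableWithinAt
      (s := {z | g z ≠ 0}) (fun y hy => by
        change g _ ≠ 0
        rw [← hLa]; exact hy)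
    exact this
  · intro z hz c hc
    have hz' : g ((L.symm z) 0 • v + (L.symm z) 1 • p + (L.symm z) 2 • n) ≠ 0 := by
      rw [← hLa]; exact hz
    simp only [map_smul]
    exact h2 _ hz' c hc
  · intro z hz
    have hz' : g ((L.symm z) 0 • v + (L.symm z) 1 • p + (L.symm z) 2 • n) ≠ 0 := by
      rw [← hLa]; exact hz
    have hs := h3 _ hz'
    have hf : fderiv ℂ (fun z => Φ (L.symm z)) z =
        (fderiv ℂ Φ (L.symm z)).comp (L.symm : (Fin 3 → ℂ) →L[ℂ] (Fin 3 → ℂ)) :=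
      ContinuousLinearEquiv.comp_right_fderiv L.symm
    rw [hf]
    intro t
    obtain ⟨u, hu⟩ := hs t
    refine ⟨L u, ?_⟩
    simp [hu]

theorem good_congr (g h : (Fin 3 → ℂ) → ℂ) (H : ∀ w, g w ≠ 0 ↔ h w ≠ 0) (hh : Good h) :
    Good g := by
  obtain ⟨Φ, h1, h2, h3⟩ := hh
  refine ⟨Φ, ?_, fun z hz => h2 z ((H z).1 hz), fun z hz => h3 z ((H z).1 hz)⟩
  have : {z | g z ≠ 0} = {z | h z ≠ 0} := by
    ext z
    exact H z
  rw [this]
  exact h1

/-- coordinate-free smoothness of the cone `g = 0` away from the origin -/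
def Sm (g : (Fin 3 → ℂ) → ℂ) : Prop :=
  ∀ w : Fin 3 → ℂ, w ≠ 0 → g w = 0 → ∃ v : Fin 3 → ℂ, deriv (fun t : ℂ => g (w + t • v)) 0 ≠ 0

theorem sm_of_basis (g : (Fin 3 → ℂ) → ℂ) (v p n : Fin 3 → ℂ)
    (hinj : ∀ x y z : ℂ, x • v + y • p + z • n = 0 → x = 0 ∧ y = 0 ∧ z = 0)
    (h : Sm g) : Sm (fun w => g (w 0 • v + w 1 • p + w 2 • n)) := by
  intro w hw hg
  have hLw : w 0 • v + w 1 • p + w 2 • n ≠ 0 := by
    intro h0
    obtain ⟨h0, h1, h2⟩ := hinj _ _ _ h0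
    apply hw
    funext i
    fin_cases i
    · exact h0
    · exact h1
    · exact h2
  obtain ⟨u, hu⟩ := h _ hLw hg
  obtain ⟨u', hu'⟩ := (lmap_bij v p n hinj).2 u
  refine ⟨u', ?_⟩
  have e : (fun t : ℂ => g ((w + t • u') 0 • v + (w + t • u') 1 • p + (w + t • u') 2 • n)) =
      (fun t : ℂ => g (w 0 • v + w 1 • p + w 2 • n + t • u)) := by
    funext t
    congr 1
    rw [← hu']
    simp only [lmap, LinearMap.coe_mk, AddHom.coe_mk, Pi.add_apply, Pi.smul_apply, smul_eq_mul,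
      add_smul, mul_smul, smul_add]
    abel
  rw [e]
  exact hu

theorem not_sm (g : (Fin 3 → ℂ) → ℂ) (w : Fin 3 → ℂ) (hw : w ≠ 0)
    (H : ∀ v : Fin 3 → ℂ, ∃ a b : ℂ, ∀ t : ℂ, g (w + t • v) = t ^ 2 * (a + b * t)) : ¬ Sm g := by
  intro hs
  have h0 : g w = 0 := by
    obtain ⟨a, b, h⟩ := H 0
    have := h 0
    simpa using this
  obtain ⟨v, hv⟩ := hs w hw h0
  obtain ⟨a, b, h⟩ := H v
  apply hv
  have e : (fun t : ℂ => g (w + t • v)) = (fun t : ℂ => t ^ 2 * (a + b * t)) := funext h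
  rw [e]
  have hd : HasDerivAt (fun t : ℂ => t ^ 2 * (a + b * t)) 0 0 := by
    have h1 : HasDerivAt (fun t : ℂ => t ^ 2) 0 0 := by
      simpa using hasDerivAt_pow 2 (0 : ℂ)
    have h2 : HasDerivAt (fun t : ℂ => a + b * t) b 0 := by
      simpa using ((hasDerivAt_id (0 : ℂ)).const_mul b).const_add a
    have h3 : HasDerivAt (fun t : ℂ => t ^ 2 * (a + b * t)) (0 * (a + b * 0) + 0 ^ 2 * b) 0 :=
      h1.mul h2
    simpa using h3
  exact hd.deriv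

/-- explicit value of the cubic -/
def cv (c : Fin 10 → ℂ) (w : Fin 3 → ℂ) : ℂ :=
  c 0 * w 0 ^ 3 + c 1 * w 0 ^ 2 * w 1 + c 2 * w 0 ^ 2 * w 2 + c 3 * w 0 * w 1 ^ 2
  + c 4 * w 0 * w 1 * w 2 + c 5 * w 0 * w 2 ^ 2 + c 6 * w 1 ^ 3
  + c 7 * w 1 ^ 2 * w 2 + c 8 * w 1 * w 2 ^ 2 + c 9 * w 2 ^ 3

/-- first partials -/
def cd (c : Fin 10 → ℂ) (w : Fin 3 → ℂ) : Fin 3 → ℂ :=
  ![3 * c 0 * w 0 ^ 2 + 2 * c 1 * w 0 * w 1 + 2 * c 2 * w 0 * w 2 + c 3 * w 1 ^ 2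
      + c 4 * w 1 * w 2 + c 5 * w 2 ^ 2,
    c 1 * w 0 ^ 2 + 2 * c 3 * w 0 * w 1 + c 4 * w 0 * w 2 + 3 * c 6 * w 1 ^ 2
      + 2 * c 7 * w 1 * w 2 + c 8 * w 2 ^ 2,
    c 2 * w 0 ^ 2 + c 4 * w 0 * w 1 + 2 * c 5 * w 0 * w 2 + c 7 * w 1 ^ 2
      + 2 * c 8 * w 1 * w 2 + 3 * c 9 * w 2 ^ 2]

/-- directional derivative -/
def dd (c : Fin 10 → ℂ) (w v : Fin 3 → ℂ) : ℂ :=
  cd c w 0 * v 0 + cd c w 1 * v 1 + cd c w 2 * v 2

/-- the Hessian matrix -/
def hs (c : Fin 10 → ℂ) (w : Fin 3 → ℂ) : Matrix (Fin 3) (Fin 3) ℂ :=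
  !![6 * c 0 * w 0 + 2 * c 1 * w 1 + 2 * c 2 * w 2, 2 * c 1 * w 0 + 2 * c 3 * w 1 + c 4 * w 2,
      2 * c 2 * w 0 + c 4 * w 1 + 2 * c 5 * w 2;
    2 * c 1 * w 0 + 2 * c 3 * w 1 + c 4 * w 2, 2 * c 3 * w 0 + 6 * c 6 * w 1 + 2 * c 7 * w 2,
      c 4 * w 0 + 2 * c 7 * w 1 + 2 * c 8 * w 2;
    2 * c 2 * w 0 + c 4 * w 1 + 2 * c 5 * w 2, c 4 * w 0 + 2 * c 7 * w 1 + 2 * c 8 * w 2,
      2 * c 5 * w 0 + 2 * c 8 * w 1 + 6 * c 9 * w 2]

theorem eval_cub (c : Fin 10 → ℂ) (w : Fin 3 → ℂ) : eval w (cub c) = cv c w := by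
  simp [cub, cv]

/-- polynomial version of the Hessian determinant -/
noncomputable def hpoly (c : Fin 10 → ℂ) : MvPolynomial (Fin 3) ℂ :=
  Matrix.det !![C (6 * c 0) * X 0 + C (2 * c 1) * X 1 + C (2 * c 2) * X 2,
      C (2 * c 1) * X 0 + C (2 * c 3) * X 1 + C (c 4) * X 2,
      C (2 * c 2) * X 0 + C (c 4) * X 1 + C (2 * c 5) * X 2;
    C (2 * c 1) * X 0 + C (2 * c 3) * X 1 + C (c 4) * X 2,
      C (2 * c 3) * X 0 + C (6 * c 6) * X 1 + C (2 * c 7) * X 2,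
      C (c 4) * X 0 + C (2 * c 7) * X 1 + C (2 * c 8) * X 2;
    C (2 * c 2) * X 0 + C (c 4) * X 1 + C (2 * c 5) * X 2,
      C (c 4) * X 0 + C (2 * c 7) * X 1 + C (2 * c 8) * X 2,
      C (2 * c 5) * X 0 + C (2 * c 8) * X 1 + C (6 * c 9) * X 2]

theorem eval_hpoly (c : Fin 10 → ℂ) (w : Fin 3 → ℂ) : eval w (hpoly c) = (hs c w).det := by
  simp only [hpoly, hs, Matrix.det_fin_three]
  simp

theorem eval_pderiv_cub (c : Fin 10 → ℂ) (w : Fin 3 → ℂ) (i : Fin 3) :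
    eval w (pderiv i (cub c)) = cd c w i := by
  fin_cases i
  · simp [cub, cd, pderiv_mul, pderiv_pow, pderiv_X, Pi.single_apply]
    ring
  · simp [cub, cd, pderiv_mul, pderiv_pow, pderiv_X, Pi.single_apply]
    ring
  · simp [cub, cd, pderiv_mul, pderiv_pow, pderiv_X, Pi.single_apply]
    ring

theorem sm_cub (P : MvPolynomial (Fin 3) ℂ)
    (hs : ∀ z : Fin 3 → ℂ, z ≠ 0 → eval z P = 0 → ∃ i : Fin 3, eval z (pderiv i P) ≠ 0) :
    Sm (fun z => eval z P) := by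
  intro w hw h0
  obtain ⟨i, hi⟩ := hs w hw h0
  refine ⟨Pi.single i 1, ?_⟩
  have h1 := hasFDerivAt_eval P w
  have hl : HasDerivAt (fun t : ℂ => w + t • (Pi.single i 1 : Fin 3 → ℂ))
      (Pi.single i 1 : Fin 3 → ℂ) 0 := by
    have := ((hasDerivAt_id (0 : ℂ)).smul_const (Pi.single i 1 : Fin 3 → ℂ)).const_add w
    simpa using this
  have h1' : HasFDerivAt (fun w : Fin 3 → ℂ => eval w P) (lin fun i => eval w (pderiv i P))
      (w + (0 : ℂ) • (Pi.single i 1 : Fin 3 → ℂ)) := by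
    simpa using h1
  have h2 := h1'.comp_hasDerivAt (0 : ℂ) hl
  have h3 : lin (fun i => eval w (pderiv i P)) (Pi.single i 1 : Fin 3 → ℂ) =
      eval w (pderiv i P) := by
    rw [lin_apply]
    simp [Pi.single_apply]
  rw [h3] at h2
  have h4 := h2.deriv
  change deriv ((fun w : Fin 3 → ℂ => eval w P) ∘ fun t : ℂ => w + t • (Pi.single i 1 : Fin 3 → ℂ)) 0 ≠ 0
  rw [h4]
  exact hi

theorem dd_lin (c : Fin 10 → ℂ) (w v p n : Fin 3 → ℂ) (x y z : ℂ) :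
    dd c w (x • v + y • p + z • n) = x * dd c w v + y * dd c w p + z * dd c w n := by
  simp only [dd, Pi.add_apply, Pi.smul_apply, smul_eq_mul]
  ring

theorem dd_self (c : Fin 10 → ℂ) (w : Fin 3 → ℂ) : dd c w w = 3 * cv c w := by
  simp only [dd, cd, cv, Matrix.cons_val_zero, Matrix.cons_val_one, Matrix.cons_val]
  ring

theorem hs_dd (c : Fin 10 → ℂ) (w v : Fin 3 → ℂ) :
    2 * dd c w v = w 0 * (hs c w).mulVec v 0 + w 1 * (hs c w).mulVec v 1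
      + w 2 * (hs c w).mulVec v 2 := by
  simp only [dd, cd, hs, Matrix.mulVec, dotProduct, Fin.sum_univ_three, Matrix.cons_val_zero,
    Matrix.cons_val_one, Matrix.cons_val, Matrix.of_apply, Matrix.cons_val']
  ring

theorem hs_dd' (c : Fin 10 → ℂ) (w v : Fin 3 → ℂ) :
    2 * dd c v w = v 0 * (hs c w).mulVec v 0 + v 1 * (hs c w).mulVec v 1
      + v 2 * (hs c w).mulVec v 2 := by
  simp only [dd, cd, hs, Matrix.mulVec, dotProduct, Fin.sum_univ_three, Matrix.cons_val_zero,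
    Matrix.cons_val_one, Matrix.cons_val, Matrix.of_apply, Matrix.cons_val']
  ring

theorem hs_self (c : Fin 10 → ℂ) (w : Fin 3 → ℂ) (i : Fin 3) :
    (hs c w).mulVec w i = 2 * cd c w i := by
  fin_cases i
  · simp only [cd, hs, Matrix.mulVec, dotProduct, Fin.sum_univ_three, Matrix.cons_val_zero,
      Matrix.cons_val_one, Matrix.cons_val, Matrix.of_apply, Matrix.cons_val', Fin.zero_eta,
      Fin.mk_one, Fin.reduceFinMk]
    ring
  · simp only [cd, hs, Matrix.mulVec, dotProduct, Fin.sum_univ_three, Matrix.cons_val_zero,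
      Matrix.cons_val_one, Matrix.cons_val, Matrix.of_apply, Matrix.cons_val', Fin.zero_eta,
      Fin.mk_one, Fin.reduceFinMk]
    ring
  · simp only [cd, hs, Matrix.mulVec, dotProduct, Fin.sum_univ_three, Matrix.cons_val_zero,
      Matrix.cons_val_one, Matrix.cons_val, Matrix.of_apply, Matrix.cons_val', Fin.zero_eta,
      Fin.mk_one, Fin.reduceFinMk]
    ring

theorem exists_flex (c : Fin 10 → ℂ)
    (hsm : ∀ z : Fin 3 → ℂ, z ≠ 0 → cv c z = 0 → ∃ i : Fin 3, cd c z i ≠ 0) :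
    ∃ v p n : Fin 3 → ℂ,
      (∀ x y z : ℂ, x • v + y • p + z • n = 0 → x = 0 ∧ y = 0 ∧ z = 0) ∧
      cv c p = 0 ∧ dd c p v = 0 ∧ dd c v p = 0 ∧ dd c p n ≠ 0 := by
  obtain ⟨p, hp0, hp1, hp2⟩ := common_zero (cub c) (hpoly c) (by simp [cub])
    (by rw [eval_hpoly]; simp [hs, Matrix.det_fin_three])
  rw [eval_cub] at hp1
  rw [eval_hpoly] at hp2
  obtain ⟨v, hv0, hv1⟩ := Matrix.exists_mulVec_eq_zero_iff.2 hp2
  obtain ⟨i, hi⟩ := hsm p hp0 hp1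
  have hpv : dd c p v = 0 := by
    have := hs_dd c p v
    rw [hv1] at this
    simpa using this
  have hvp : dd c v p = 0 := by
    have := hs_dd' c p v
    rw [hv1] at this
    simpa using this
  have hpn : dd c p (Pi.single i 1) = cd c p i := by
    fin_cases i <;> simp [dd]
  refine ⟨v, p, Pi.single i 1, ?_, hp1, hpv, hvp, ?_⟩
  · intro x y z h
    have e1 := dd_lin c p v p (Pi.single i 1) x y z
    rw [h, hpv, dd_self, hp1, hpn] at e1
    have e2 : dd c p 0 = 0 := by simp [dd]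
    rw [e2] at e1
    have hz : z = 0 := by
      have : z * cd c p i = 0 := by linear_combination -e1
      exact (mul_eq_zero.1 this).resolve_right hi
    subst hz
    rw [zero_smul, add_zero] at h
    have e3 : (hs c p).mulVec (x • v + y • p) i = 0 := by
      rw [h]
      simp
    rw [Matrix.mulVec_add, Matrix.mulVec_smul, Matrix.mulVec_smul, hv1] at e3
    simp only [smul_zero, zero_add, Pi.smul_apply, smul_eq_mul, hs_self] at e3
    have hy : y = 0 := by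
      have : y * cd c p i = 0 := by linear_combination (1/2 : ℂ) * e3
      exact (mul_eq_zero.1 this).resolve_right hi
    subst hy
    rw [zero_smul, add_zero] at h
    exact ⟨(smul_eq_zero.1 h).resolve_right hv0, rfl, rfl⟩
  · rw [hpn]
    exact hi

theorem cv_expand (c : Fin 10 → ℂ) (v p n : Fin 3 → ℂ) (x y z : ℂ) :
    cv c (x • v + y • p + z • n) = x ^ 3 * cv c v + y ^ 3 * cv c p + z ^ 3 * cv c n
      + x ^ 2 * y * dd c v p + x * y ^ 2 * dd c p v + x ^ 2 * z * dd c v n + x * z ^ 2 * dd c n v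
      + y ^ 2 * z * dd c p n + y * z ^ 2 * dd c n p
      + x * y * z * (dd c (v + p) n - dd c v n - dd c p n) := by
  simp only [cv, dd, cd, Pi.add_apply, Pi.smul_apply, smul_eq_mul, Matrix.cons_val_zero,
    Matrix.cons_val_one, Matrix.cons_val]
  ring

/-- Step 5: three distinct roots. -/
theorem good_roots (α β e1 e2 e3 : ℂ) (hα : α ≠ 0) (hβ : β ≠ 0) (h12 : e1 ≠ e2) (h13 : e1 ≠ e3)
    (h23 : e2 ≠ e3) :
    Good (fun w => β * w 1 ^ 2 * w 2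
      + α * ((w 0 - e1 * w 2) * (w 0 - e2 * w 2) * (w 0 - e3 * w 2))) := by
  have h23' : e2 - e3 ≠ 0 := sub_ne_zero.2 h23
  obtain ⟨μ, hμ⟩ : ∃ μ : ℂ, μ ^ 2 = -α * (e2 - e3) ^ 3 / β :=
    IsAlgClosed.exists_pow_nat_eq _ (by norm_num)
  have hμ0 : μ ≠ 0 := by
    rintro rfl
    have : -α * (e2 - e3) ^ 3 / β ≠ 0 :=
      div_ne_zero (mul_ne_zero (neg_ne_zero.2 hα) (pow_ne_zero 3 h23')) hβ
    apply this
    rw [← hμ]
    ring
  have hμ' : β * μ ^ 2 = -α * (e2 - e3) ^ 3 := by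
    rw [hμ]
    field_simp
  refine good_of_basis _ ![e2, 0, 1] ![e3, 0, 1] ![0, μ, 0] ?_ ?_
  · intro x y z h
    have h0 := congrFun h 0
    have h1 := congrFun h 1
    have h2 := congrFun h 2
    simp at h0 h1 h2
    have hz : z = 0 := h1.resolve_right hμ0
    have hx : x = 0 := by
      have : x * (e2 - e3) = 0 := by linear_combination h0 - e3 * h2
      exact (mul_eq_zero.1 this).resolve_right h23'
    refine ⟨hx, ?_, hz⟩
    rw [hx, zero_add] at h2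
    exact h2
  · refine good_congr _ _ ?_ (good_normal ((e3 - e1) / (e2 - e3)) ?_ ?_)
    · intro w
      have hκ : -α * (e2 - e3) ^ 3 ≠ 0 := mul_ne_zero (neg_ne_zero.2 hα) (pow_ne_zero 3 h23')
      have e : β * (w 0 • ![e2, 0, 1] + w 1 • ![e3, 0, 1] + w 2 • ![0, μ, 0] : Fin 3 → ℂ) 1 ^ 2
          * (w 0 • ![e2, 0, 1] + w 1 • ![e3, 0, 1] + w 2 • ![0, μ, 0] : Fin 3 → ℂ) 2
          + α * (((w 0 • ![e2, 0, 1] + w 1 • ![e3, 0, 1] + w 2 • ![0, μ, 0] : Fin 3 → ℂ) 0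
          - e1 * (w 0 • ![e2, 0, 1] + w 1 • ![e3, 0, 1] + w 2 • ![0, μ, 0] : Fin 3 → ℂ) 2)
          * ((w 0 • ![e2, 0, 1] + w 1 • ![e3, 0, 1] + w 2 • ![0, μ, 0] : Fin 3 → ℂ) 0
          - e2 * (w 0 • ![e2, 0, 1] + w 1 • ![e3, 0, 1] + w 2 • ![0, μ, 0] : Fin 3 → ℂ) 2)
          * ((w 0 • ![e2, 0, 1] + w 1 • ![e3, 0, 1] + w 2 • ![0, μ, 0] : Fin 3 → ℂ) 0
          - e3 * (w 0 • ![e2, 0, 1] + w 1 • ![e3, 0, 1] + w 2 • ![0, μ, 0] : Fin 3 → ℂ) 2))
          = (-α * (e2 - e3) ^ 3) * CubicId.F ((e3 - e1) / (e2 - e3)) (w 0) (w 1) (w 2) := by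
        simp only [Pi.add_apply, Pi.smul_apply, smul_eq_mul, Matrix.cons_val_zero,
          Matrix.cons_val_one, Matrix.cons_val, CubicId.F]
        field_simp
        linear_combination (w 2) ^ 2 * (w 0 + w 1) * hμ'
      rw [e]
      constructor
      · intro h
        exact (mul_ne_zero_iff.1 h).2
      · intro h
        exact mul_ne_zero hκ h
    · exact div_ne_zero (sub_ne_zero.2 (Ne.symm h13)) h23'
    · have : (e3 - e1) / (e2 - e3) + 1 = (e2 - e1) / (e2 - e3) := by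
        field_simp
        ring
      rw [this]
      exact div_ne_zero (sub_ne_zero.2 (Ne.symm h12)) h23'

theorem roots_ne (α β e1 e2 e3 : ℂ)
    (h : Sm (fun w => β * w 1 ^ 2 * w 2
      + α * ((w 0 - e1 * w 2) * (w 0 - e2 * w 2) * (w 0 - e3 * w 2)))) : e1 ≠ e2 := by
  rintro rfl
  refine not_sm _ ![e1, 0, 1] ?_ ?_ h
  · intro h0
    have := congrFun h0 2
    simp at this
  · intro v
    refine ⟨β * v 1 ^ 2 + α * (v 0 - e1 * v 2) ^ 2 * (e1 - e3),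
      β * v 1 ^ 2 * v 2 + α * (v 0 - e1 * v 2) ^ 2 * (v 0 - e3 * v 2), ?_⟩
    intro t
    simp only [Pi.add_apply, Pi.smul_apply, smul_eq_mul, Matrix.cons_val_zero,
      Matrix.cons_val_one, Matrix.cons_val]
    ring

theorem factor_cubic (α δ ζ η : ℂ) (hα : α ≠ 0) : ∃ e1 e2 e3 : ℂ, ∀ x z : ℂ,
    α * x ^ 3 + δ * x ^ 2 * z + ζ * x * z ^ 2 + η * z ^ 3 =
      α * ((x - e1 * z) * (x - e2 * z) * (x - e3 * z)) := by
  obtain ⟨e1, he1⟩ : ∃ e : ℂ, e ^ 3 + δ / α * e ^ 2 + ζ / α * e + η / α = 0 := by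
    set q : Polynomial ℂ := Polynomial.X ^ 3 + Polynomial.C (δ / α) * Polynomial.X ^ 2
      + Polynomial.C (ζ / α) * Polynomial.X + Polynomial.C (η / α) with hq
    have hd : q.degree = 3 := by
      rw [hq]
      compute_degree!
    obtain ⟨e, he⟩ := IsAlgClosed.exists_root q (by rw [hd]; norm_num)
    refine ⟨e, ?_⟩
    simpa [hq, Polynomial.IsRoot] using he
  set u := δ / α + e1 with hu
  set s := ζ / α + (δ / α) * e1 + e1 ^ 2 with hs
  obtain ⟨r, hr⟩ : ∃ r : ℂ, r ^ 2 = u ^ 2 - 4 * s := IsAlgClosed.exists_pow_nat_eq _ (by norm_num)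
  refine ⟨e1, (-u + r) / 2, (-u - r) / 2, ?_⟩
  intro x z
  have k1 : (x - (-u + r) / 2 * z) * (x - (-u - r) / 2 * z) = x ^ 2 + u * x * z + s * z ^ 2 := by
    linear_combination (-1/4 : ℂ) * z ^ 2 * hr
  have k2 : (x - e1 * z) * (x ^ 2 + u * x * z + s * z ^ 2) =
      x ^ 3 + δ / α * x ^ 2 * z + ζ / α * x * z ^ 2 + η / α * z ^ 3 := by
    rw [hu, hs]
    linear_combination (-1 : ℂ) * z ^ 3 * he1
  rw [mul_assoc (x - e1 * z), k1, k2]
  field_simp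

theorem good_cubic2 (α β δ ζ η : ℂ) (hα : α ≠ 0) (hβ : β ≠ 0)
    (h : Sm (fun w => α * w 0 ^ 3 + β * w 1 ^ 2 * w 2 + δ * w 0 ^ 2 * w 2 + ζ * w 0 * w 2 ^ 2
      + η * w 2 ^ 3)) :
    Good (fun w => α * w 0 ^ 3 + β * w 1 ^ 2 * w 2 + δ * w 0 ^ 2 * w 2 + ζ * w 0 * w 2 ^ 2
      + η * w 2 ^ 3) := by
  obtain ⟨e1, e2, e3, he⟩ := factor_cubic α δ ζ η hα
  have e : (fun w : Fin 3 → ℂ => α * w 0 ^ 3 + β * w 1 ^ 2 * w 2 + δ * w 0 ^ 2 * w 2
      + ζ * w 0 * w 2 ^ 2 + η * w 2 ^ 3) = (fun w => β * w 1 ^ 2 * w 2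
      + α * ((w 0 - e1 * w 2) * (w 0 - e2 * w 2) * (w 0 - e3 * w 2))) := by
    funext w
    rw [← he]
    ring
  rw [e] at h ⊢
  have h13 : e1 ≠ e3 := by
    apply roots_ne α β e1 e3 e2
    convert h using 2
    ring
  have h23 : e2 ≠ e3 := by
    apply roots_ne α β e2 e3 e1
    convert h using 2
    ring
  exact good_roots α β e1 e2 e3 hα hβ (roots_ne α β e1 e2 e3 h) h13 h23

theorem good_cubic1 (α β γ δ ε ζ η : ℂ) (hβ : β ≠ 0)
    (h : Sm (fun w => α * w 0 ^ 3 + w 2 * (β * w 1 ^ 2 + γ * w 0 * w 1 + δ * w 0 ^ 2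
      + ε * w 1 * w 2 + ζ * w 0 * w 2 + η * w 2 ^ 2))) :
    Good (fun w => α * w 0 ^ 3 + w 2 * (β * w 1 ^ 2 + γ * w 0 * w 1 + δ * w 0 ^ 2
      + ε * w 1 * w 2 + ζ * w 0 * w 2 + η * w 2 ^ 2)) := by
  have hα : α ≠ 0 := by
    rintro rfl
    obtain ⟨r, hr⟩ : ∃ r : ℂ, r ^ 2 = γ ^ 2 - 4 * β * δ :=
      IsAlgClosed.exists_pow_nat_eq _ (by norm_num)
    set y0 := (-γ + r) / (2 * β) with hy0
    have hroot : β * y0 ^ 2 + γ * y0 + δ = 0 := by
      rw [hy0]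
      field_simp
      linear_combination hr
    refine not_sm _ ![1, y0, 0] ?_ ?_ h
    · intro h0
      have := congrFun h0 0
      simp at this
    · intro v
      refine ⟨v 2 * (2 * β * y0 * v 1 + γ * (v 1 + y0 * v 0) + 2 * δ * v 0 + ε * y0 * v 2
        + ζ * v 2), v 2 * (β * v 1 ^ 2 + γ * v 0 * v 1 + δ * v 0 ^ 2 + ε * v 1 * v 2
        + ζ * v 0 * v 2 + η * v 2 ^ 2), ?_⟩
      intro t
      simp only [Pi.add_apply, Pi.smul_apply, smul_eq_mul, Matrix.cons_val_zero,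
        Matrix.cons_val_one, Matrix.cons_val]
      linear_combination t * v 2 * hroot
  have hinj : ∀ x y z : ℂ, x • (![1, -γ / (2 * β), 0] : Fin 3 → ℂ) + y • ![0, 1, 0]
      + z • ![0, -ε / (2 * β), 1] = 0 → x = 0 ∧ y = 0 ∧ z = 0 := by
    intro x y z h
    have h0 := congrFun h 0
    have h1 := congrFun h 1
    have h2 := congrFun h 2
    simp at h0 h1 h2
    subst h0 h2
    refine ⟨rfl, ?_, rfl⟩
    simpa using h1
  refine good_of_basis _ ![1, -γ / (2 * β), 0] ![0, 1, 0] ![0, -ε / (2 * β), 1] hinj ?_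
  have h' := sm_of_basis _ ![1, -γ / (2 * β), 0] ![0, 1, 0] ![0, -ε / (2 * β), 1] hinj h
  have e : (fun w : Fin 3 → ℂ => (fun w : Fin 3 → ℂ => α * w 0 ^ 3 + w 2 * (β * w 1 ^ 2
      + γ * w 0 * w 1 + δ * w 0 ^ 2 + ε * w 1 * w 2 + ζ * w 0 * w 2 + η * w 2 ^ 2))
      (w 0 • (![1, -γ / (2 * β), 0] : Fin 3 → ℂ) + w 1 • ![0, 1, 0]
      + w 2 • ![0, -ε / (2 * β), 1])) =
      (fun w => α * w 0 ^ 3 + β * w 1 ^ 2 * w 2 + (δ - γ ^ 2 / (4 * β)) * w 0 ^ 2 * w 2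
        + (ζ - γ * ε / (2 * β)) * w 0 * w 2 ^ 2 + (η - ε ^ 2 / (4 * β)) * w 2 ^ 3) := by
    funext w
    simp only [Pi.add_apply, Pi.smul_apply, smul_eq_mul, Matrix.cons_val_zero,
      Matrix.cons_val_one, Matrix.cons_val]
    field_simp
    ring
  rw [e] at h' ⊢
  exact good_cubic2 _ _ _ _ _ hα hβ h'

theorem good_smooth (P : MvPolynomial (Fin 3) ℂ) (hP : P.IsHomogeneous 3)
    (hsm : ∀ z : Fin 3 → ℂ, z ≠ 0 → eval z P = 0 → ∃ i : Fin 3, eval z (pderiv i P) ≠ 0) :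
    Good (fun z => eval z P) := by
  obtain ⟨c, rfl⟩ := exists_cub P hP
  have hS := sm_cub (cub c) hsm
  obtain ⟨v, p, n, hinj, hp, hpv, hvp, hpn⟩ := exists_flex c (by
    intro z hz h0
    obtain ⟨i, hi⟩ := hsm z hz (by rw [eval_cub]; exact h0)
    exact ⟨i, by rw [← eval_pderiv_cub]; exact hi⟩)
  refine good_of_basis _ v p n hinj ?_
  have h' := sm_of_basis _ v p n hinj hS
  have e : (fun w : Fin 3 → ℂ => (fun z : Fin 3 → ℂ => eval z (cub c))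
      (w 0 • v + w 1 • p + w 2 • n)) =
      (fun w => cv c v * w 0 ^ 3 + w 2 * (dd c p n * w 1 ^ 2
        + (dd c (v + p) n - dd c v n - dd c p n) * w 0 * w 1 + dd c v n * w 0 ^ 2
        + dd c n p * w 1 * w 2 + dd c n v * w 0 * w 2 + cv c n * w 2 ^ 2)) := by
    funext w
    simp only [eval_cub]
    rw [cv_expand, hp, hpv, hvp]
    ring
  rw [e] at h' ⊢
  exact good_cubic1 _ _ _ _ _ _ _ hpn h'

end Pool.Agent.Helper417.CubicNormal
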